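import Pool.Agent.Lib.MP_7d369a_lc.BV.Iface
import Pool.Agent.Lib.MP_7d369a_lc.Defs

/-!
# Boolean-valued definitions for the Yorioka ideals

`B` is a complete Boolean algebra. `BFun B X Y` (from `MP_62a69e_lc.Defs`) are the `B`-names of
functions between ground model sets, `W` is `ω₁`. We define the Boolean values of
`σ n` is an initial segment of `x`, `x ∈ [σ]_∞`, `f ≪ ht_σ`, `X ∈ I_f`, `add(I_f) > ℵ₁` and
`cof(I_f) ≤ ℵ₁`.
-/

set_option autoImplicit false

namespace Pool.Agent.Lib.MP_7d369a_lc.BV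

open Pool.Agent.Ladder

section
variable {B : Type} [CompleteBooleanAlgebra B]

/-- The value of `x = y`, for names `x`, `y` of elements of `2^ω`. -/
def eqVal (x y : BFun B ℕ Bool) : B := ⨅ n, ⨆ b, x.val n b ⊓ y.val n b

/-- A `B`-name of a subset of `2^ω`: `val x` is the value of `x ∈ X`. -/
structure SetName (B : Type) [CompleteBooleanAlgebra B] where
  val : BFun B ℕ Bool → B
  ext : ∀ x y, eqVal x y ⊓ val x ≤ val y

/-- The value of `σ n ⊆ x` (`σ n` is an initial segment of `x`). -/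
def extVal (σ : BFun B ℕ (List Bool)) (n : ℕ) (x : BFun B ℕ Bool) : B :=
  ⨆ s : List Bool, σ.val n s ⊓ ⨅ i : Fin s.length, x.val i s[i]

/-- The value of `x ∈ [σ]_∞`. -/
def limsupVal (σ : BFun B ℕ (List Bool)) (x : BFun B ℕ Bool) : B :=
  ⨅ N : ℕ, ⨆ n : ℕ, ⨆ (_ : N ≤ n), extVal σ n x

/-- The value of `f ≪ ht_σ`: for every `k`, `f (n ^ k) ≤ |σ n|` for all but finitely many `n`. -/
def llVal (f : ℕ → ℕ) (σ : BFun B ℕ (List Bool)) : B :=
  ⨅ k : ℕ, ⨆ N : ℕ, ⨅ n : ℕ, ⨅ (_ : N ≤ n), ⨆ s : List Bool, ⨆ (_ : f (n ^ k) ≤ s.length),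
    σ.val n s

/-- The value of `X ∈ I_f`: some `σ` with `f ≪ ht_σ` has `X ⊆ [σ]_∞`. -/
def memVal (f : ℕ → ℕ) (X : SetName B) : B :=
  ⨆ σ : BFun B ℕ (List Bool), llVal f σ ⊓ ⨅ x : BFun B ℕ Bool, (X.val x ⇨ limsupVal σ x)

/-- The value of `X ⊆ Y`. -/
def subVal (X Y : SetName B) : B := ⨅ x : BFun B ℕ Bool, (X.val x ⇨ Y.val x)

/-- The union of a family of names of subsets of `2^ω`. -/
def unionName {I : Type} (X : I → SetName B) : SetName B where
  val x := ⨆ i, (X i).val x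
  ext x y := by
    rw [inf_iSup_eq]
    exact iSup_mono fun i => (X i).ext x y

/-- The value of `add(I_f) > ℵ₁`: for every `ω₁`-sequence of members of `I_f` the union is in
`I_f`. -/
def addGtVal (B : Type) [CompleteBooleanAlgebra B] (f : ℕ → ℕ) : B :=
  ⨅ X : W → SetName B, ((⨅ a, memVal f (X a)) ⇨ memVal f (unionName X))

/-- The value of `cof(I_f) ≤ ℵ₁`: there is an `ω₁`-sequence of members of `I_f` such that every
member of `I_f` is contained in one of them. -/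
def cofLeVal (B : Type) [CompleteBooleanAlgebra B] (f : ℕ → ℕ) : B :=
  ⨆ X : W → SetName B, (⨅ a, memVal f (X a)) ⊓
    ⨅ Y : SetName B, (memVal f Y ⇨ ⨆ a, subVal Y (X a))

end

end Pool.Agent.Lib.MP_7d369a_lc.BV
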