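import Pool.Agent.Lib.MP_7d369a_lc.Final

/-!
# An explicit version of the enumeration lemma and of the capture lemma `step6`
-/

set_option autoImplicit false

namespace Pool.Agent.Lib.MP_7d369a_lc.BV

open Filter Cardinal

/-- partial sums -/
def cs (N : ℕ → ℕ) (j : ℕ) : ℕ := ∑ i ∈ Finset.range j, N i

/-- the level of `n` -/
def lev (N : ℕ → ℕ) (n : ℕ) : ℕ := Nat.findGreatest (fun j => cs N j ≤ n) n

/-- the explicit enumeration, depending only on one level -/
noncomputable def enumCode (N : ℕ → ℕ) (S : ℕ → Finset (List Bool)) (lam : ℕ → ℕ) (n : ℕ) :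
    List Bool :=
  (S (lev N n)).toList.getD (n - cs N (lev N n)) (List.replicate (lam (lev N n)) false)

theorem enumCode_spec {f : ℕ → ℕ} (hf : Monotone f) {S : ℕ → Finset (List Bool)} {N lam : ℕ → ℕ}
    (hN : Monotone N) (hN1 : ∀ j, 1 ≤ N j) (hS : ∀ j, (S j).card ≤ N j)
    (hlam : ∀ j, ∀ s ∈ S j, lam j ≤ s.length)
    (hgrow : ∀ k : ℕ, ∀ᶠ j in atTop, f (((j+1) * N j) ^ k) ≤ lam j) :
    LL f (fun n => (enumCode N S lam n).length) ∧
      ∀ x : ℕ → Bool, (∃ᶠ j in atTop, ∃ s ∈ S j, Ext s x) → x ∈ limsupSet (enumCode N S lam) := by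
  classical
  let c : ℕ → ℕ := cs N
  have hcs : ∀ j, c (j+1) = c j + N j := fun j => Finset.sum_range_succ _ _
  have hc : Monotone c := monotone_nat_of_le_succ fun j => by rw [hcs]; exact Nat.le_add_right _ _
  have hcj : ∀ j, j ≤ c j := by
    intro j
    induction j with
    | zero => exact Nat.zero_le _
    | succ j ih => rw [hcs]; have := hN1 j; omega
  have hcb : ∀ j, c (j+1) ≤ (j+1) * N j := by
    intro j
    have : c (j+1) ≤ (Finset.range (j+1)).card • N j := by
      apply Finset.sum_le_card_nsmul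
      intro i hi
      exact hN (Nat.lt_succ_iff.1 (Finset.mem_range.1 hi))
    simpa using this
  have hlev0 : ∀ n, c (lev N n) ≤ n := by
    intro n
    have : (fun j => c j ≤ n) (lev N n) :=
      Nat.findGreatest_spec (P := fun j => c j ≤ n) (m := 0) (Nat.zero_le _) (by simp [c, cs])
    exact this
  have hlev1 : ∀ n, n < c (lev N n + 1) := by
    intro n
    by_contra hcon
    push Not at hcon
    have h1 : lev N n + 1 ≤ n := (hcj _).trans hcon
    have := Nat.findGreatest_is_greatest (P := fun j => c j ≤ n) (n := n) (k := lev N n + 1)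
      (Nat.lt_succ_self _) h1
    exact this hcon
  have hlevt : Tendsto (lev N) atTop atTop := by
    rw [tendsto_atTop]
    intro J
    filter_upwards [eventually_ge_atTop (max (c J) J)] with n hn
    exact Nat.le_findGreatest ((le_max_right _ _).trans hn) ((le_max_left _ _).trans hn)
  have hlevu : ∀ j n, c j ≤ n → n < c (j+1) → lev N n = j := by
    intro j n h1 h2
    apply le_antisymm
    · by_contra hlt
      push Not at hlt
      have := hc (Nat.succ_le_of_lt hlt)
      have h3 := hlev0 n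
      have : c (j+1) ≤ n := this.trans h3
      omega
    · exact Nat.le_findGreatest ((hcj j).trans h1) h1
  refine ⟨?_, ?_⟩
  · intro k
    filter_upwards [hlevt.eventually (hgrow k)] with n hn
    have h1 : lam (lev N n) ≤ (enumCode N S lam n).length := by
      simp only [enumCode]
      by_cases h : n - cs N (lev N n) < (S (lev N n)).toList.length
      · rw [List.getD_eq_getElem _ _ h]
        apply hlam
        rw [← Finset.mem_toList]
        exact List.getElem_mem h
      · rw [List.getD_eq_default _ _ (not_lt.1 h)]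
        simp
    refine le_trans ?_ (hn.trans h1)
    apply hf
    exact Nat.pow_le_pow_left ((hlev1 n).le.trans (hcb _)) k
  · intro x hx
    simp only [limsupSet, Set.mem_ofPred_eq]
    rw [frequently_atTop] at hx ⊢
    intro n0
    obtain ⟨j, hj, s, hs, hsx⟩ := hx n0
    rw [← Finset.mem_toList] at hs
    obtain ⟨q, hq, hqs⟩ := List.getElem_of_mem hs
    have hq' : q < N j := by
      rw [Finset.length_toList] at hq
      exact hq.trans_le (hS j)
    refine ⟨c j + q, ?_, ?_⟩
    · have := hcj j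
      omega
    · have hl : lev N (c j + q) = j := hlevu j _ (Nat.le_add_right _ _) (by
        have := hcs j
        omega)
      have : enumCode N S lam (c j + q) = s := by
        simp only [enumCode]
        rw [hl]
        show (S j).toList.getD (c j + q - c j) _ = s
        rw [Nat.add_sub_cancel_left, List.getD_eq_getElem _ _ hq, hqs]
      rw [this]
      exact hsx

/-- the least threshold -/
noncomputable def thr' (f : ℕ → ℕ) (σ : ℕ → List Bool) (k : ℕ) : ℕ :=
  sInf {n | ∀ m : ℕ, n ≤ m → f (m ^ k) ≤ (σ m).length}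

lemma thr'_spec {f : ℕ → ℕ} {σ : ℕ → List Bool} (hσ : LL f (fun n => (σ n).length)) (k m : ℕ)
    (h : thr' f σ k ≤ m) : f (m ^ k) ≤ (σ m).length := by
  have h1 : {n | ∀ m : ℕ, n ≤ m → f (m ^ k) ≤ (σ m).length}.Nonempty :=
    eventually_atTop.1 (hσ k)
  exact Nat.sInf_mem h1 m h

/-- the explicit code of `step6` -/
noncomputable def w6 (g t : ℕ → ℕ) (φ : ℕ → Finset ℕ) : ℕ → List Bool :=
  enumCode (fun j => 4 ^ j) (SS g t φ) (pp g t)

theorem w6_spec {g : ℕ → ℕ} (hg : StrictMono g) (t : ℕ → ℕ) (φ : ℕ → Finset ℕ)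
    (hφ : ∀ j, (φ j).card ≤ 2 ^ j) : LL g (fun n => (w6 g t φ n).length) ∧
      ∀ x : ℕ → Bool, (∃ᶠ j in atTop, ∃ s ∈ SS g t φ j, Ext s x) → x ∈ limsupSet (w6 g t φ) :=
  enumCode_spec (f := g) hg.monotone (S := SS g t φ)
    (N := fun j => 4 ^ j) (lam := fun j => pp g t j)
    (fun i j hij => Nat.pow_le_pow_right (by norm_num) hij)
    (fun j => Nat.one_le_pow _ _ (by norm_num))
    (fun j => by
      refine Finset.card_image_le.trans ?_
      rw [Finset.card_product, Finset.card_range]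
      calc (φ j).card * 2 ^ j ≤ 2 ^ j * 2 ^ j := Nat.mul_le_mul_right _ (hφ j)
        _ = 4 ^ j := by rw [← mul_pow]; norm_num)
    (fun j s hs => by
      obtain ⟨q, _, rfl⟩ := Finset.mem_image.1 hs
      simp [strOf])
    (by
      intro k
      filter_upwards [(KK_tendsto t).eventually_ge_atTop (3 * k)] with j hj
      unfold pp
      apply hg.monotone
      have h1 : j + 1 ≤ 2 ^ j := Nat.lt_two_pow_self
      calc ((j+1) * 4 ^ j) ^ k ≤ (2 ^ j * 4 ^ j) ^ k := by gcongr
        _ = 2 ^ (j * (3 * k)) := by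
            have : (4:ℕ) ^ j = 2 ^ (2 * j) := by rw [pow_mul]; norm_num
            rw [this, ← pow_add, ← pow_mul]; congr 1; ring
        _ ≤ 2 ^ (j * KK t j) := Nat.pow_le_pow_right (by norm_num) (Nat.mul_le_mul_left _ hj))

theorem capture6 {g : ℕ → ℕ} (hg : StrictMono g) {σ : ℕ → List Bool}
    (hσ : LL g (fun n => (σ n).length)) {t : ℕ → ℕ} (h1 : ∀ᶠ k in atTop, thr' g σ k ≤ t k)
    {φ : ℕ → Finset ℕ} (hφ : ∀ j, (φ j).card ≤ 2 ^ j)
    (h2 : ∀ᶠ i in atTop, blk g t σ i ∈ φ i) : limsupSet σ ⊆ limsupSet (w6 g t φ) := by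
  have hspec := (w6_spec hg t φ hφ).2
  intro x hx
  apply hspec
  have hlog : Tendsto (Nat.log 2) atTop atTop := by
    rw [tendsto_atTop]
    intro b
    filter_upwards [eventually_ge_atTop (2 ^ b)] with m hm
    exact Nat.le_log_of_pow_le (by norm_num) hm
  have hev : ∀ᶠ i in atTop, (∀ K, K = KK t i → thr' g σ K ≤ t K) ∧ KK t i ≠ 0 ∧
      blk g t σ i ∈ φ i := by
    have ha : ∀ᶠ i in atTop, thr' g σ (KK t i) ≤ t (KK t i) := (KK_tendsto t).eventually h1
    filter_upwards [ha, (KK_tendsto t).eventually_ge_atTop 1, h2]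
      with i h3 h4 h5
    exact ⟨fun K hK => by rw [hK]; exact h3, by omega, h5⟩
  have hx' : ∃ᶠ m in atTop, Ext (σ m) x := hx
  have hfr := hx'.and_eventually ((hlog.eventually hev).and (eventually_ge_atTop 1))
  refine (hlog.frequently (p := fun i => ∃ s ∈ SS g t φ i, Ext s x) (hfr.mono ?_))
  rintro m ⟨hm1, ⟨hm2, hm3, hm4⟩, hm5⟩
  set i := Nat.log 2 m with hi
  have hle : 2 ^ i ≤ m := Nat.pow_log_le_self 2 (by omega)
  have hlt : m < 2 ^ (i + 1) := Nat.lt_pow_succ_log_self (by norm_num) m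
  have hr : m - 2 ^ i < 2 ^ i := by
    rw [pow_succ] at hlt; omega
  have hmr : 2 ^ i + (m - 2 ^ i) = m := by omega
  have hlen : pp g t i ≤ (σ m).length := by
    have h3 : thr' g σ (KK t i) ≤ m := ((hm2 _ rfl).trans (KK_spec t i hm3)).trans hle
    have h4 := thr'_spec hσ (KK t i) m h3
    refine le_trans ?_ h4
    unfold pp
    apply hg.monotone
    rw [pow_mul]
    exact Nat.pow_le_pow_left hle _
  refine ⟨strOf (pp g t i) (blk g t σ i) (m - 2 ^ i), ?_, ?_⟩
  · refine Finset.mem_image.2 ⟨(blk g t σ i, m - 2 ^ i), ?_, rfl⟩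
    rw [Finset.mem_product]
    exact ⟨hm4, Finset.mem_range.2 hr⟩
  · apply strOf_blk hr
    · rw [hmr]; exact hm1
    · rw [hmr]; exact hlen

/-! ### dependence on finitely many values -/

theorem KK_local (i : ℕ) {t t' : ℕ → ℕ} (h : ∀ n < i + 1, t n = t' n) : KK t i = KK t' i := by
  have key : ∀ j, j ≤ i → Nat.findGreatest (fun k => t k ≤ 2 ^ i) j =
      Nat.findGreatest (fun k => t' k ≤ 2 ^ i) j := by
    intro j
    induction j with
    | zero => intro _; simp
    | succ j ih =>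
      intro hj
      rw [Nat.findGreatest_succ, Nat.findGreatest_succ, ih (by omega), h (j+1) (by omega)]
  exact key i le_rfl

/-- `blk` with the value of `KK` as a parameter -/
def blkK (g : ℕ → ℕ) (K : ℕ) (σ : ℕ → List Bool) (i : ℕ) : ℕ :=
  Nat.ofBits (fun q : Fin (2 ^ i * g (2 ^ (i * K))) =>
    (σ (2 ^ i + q / g (2 ^ (i * K)))).getD (q % g (2 ^ (i * K))) false)

theorem blk_eq (g t : ℕ → ℕ) (σ : ℕ → List Bool) (i : ℕ) : blk g t σ i = blkK g (KK t i) σ i :=
  rfl

theorem blkK_local (g : ℕ → ℕ) (K i : ℕ) {σ σ' : ℕ → List Bool}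
    (h : ∀ n < 2 ^ i + 2 ^ i * g (2 ^ (i * K)), σ n = σ' n) : blkK g K σ i = blkK g K σ' i := by
  unfold blkK
  congr 1
  funext q
  rw [h]
  have := q.2
  have h2 : q.1 / g (2 ^ (i * K)) ≤ q.1 := Nat.div_le_self _ _
  omega

/-- `w6` with the value of `KK` as a parameter -/
noncomputable def w6K (g : ℕ → ℕ) (n : ℕ) (K : ℕ) (e : Finset ℕ) : List Bool :=
  let j := lev (fun j => 4 ^ j) n
  let p := g (2 ^ (j * K))
  ((e ×ˢ Finset.range (2 ^ j)).image (fun q => strOf p q.1 q.2)).toList.getD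
    (n - cs (fun j => 4 ^ j) j) (List.replicate p false)

theorem w6_eq (g t : ℕ → ℕ) (φ : ℕ → Finset ℕ) (n : ℕ) :
    w6 g t φ n = w6K g n (KK t (lev (fun j => 4 ^ j) n)) (φ (lev (fun j => 4 ^ j) n)) := rfl

theorem blk_lt {g : ℕ → ℕ} (hg : Monotone g) (t : ℕ → ℕ) (σ : ℕ → List Bool) (i : ℕ) :
    blk g t σ i < 2 ^ (2 ^ i * g (2 ^ (i ^ 2))) := by
  refine (Nat.ofBits_lt_two_pow _).trans_le ?_
  apply Nat.pow_le_pow_right (by norm_num)
  apply Nat.mul_le_mul_left
  unfold pp
  apply hg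
  apply Nat.pow_le_pow_right (by norm_num)
  rw [sq]
  exact Nat.mul_le_mul_left _ (KK_le t i)

end Pool.Agent.Lib.MP_7d369a_lc.BV
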