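import Pool.Agent.Lib.MP_7d369a_lc.BV.NM

/-!
# Mixing of names: the supremum in `memVal` is attained
-/

set_option autoImplicit false

namespace Pool.Agent.Lib.MP_7d369a_lc.BV

open Filter Pool.Agent.Ladder

section
variable {B : Type} [CompleteBooleanAlgebra B] {Y : Type} [Countable Y] [Nonempty Y]

theorem ev_eq_gen {b : B} {σ τ : BFun B ℕ Y} (h : ∀ n s, b ⊓ σ.val n s ≤ τ.val n s) :
    ∀ᶠ U in gen B, b ∈ U → ev σ U = ev τ U := by
  filter_upwards [ev_gen σ, ev_gen τ] with U h1 h2 hb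
  funext n
  have h3 := (h1 n _).2 rfl
  exact ((h2 n _).1 (U.up _ _ (h n _) (U.inf_mem _ _ hb h3))).symm

/-- Refinement of a family of elements to an antichain with the same supremum. -/
theorem exists_disjoint_refinement {ι : Type} (F : ι → B) :
    ∃ F' : ι → B, (∀ i, F' i ≤ F i) ∧ (∀ i j, i ≠ j → F' i ⊓ F' j = ⊥) ∧ ⨆ i, F' i = ⨆ i, F i := by
  classical
  let r : ι → ι → Prop := WellOrderingRel
  have hwf : WellFounded r := IsWellFounded.wf
  let F' : ι → B := fun i => F i ⊓ (⨆ j, ⨆ (_ : r j i), F j)ᶜ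
  have hd : ∀ i j, r i j → F' i ⊓ F' j = ⊥ := by
    intro i j hij
    rw [← le_bot_iff]
    have h1 : F' i ≤ ⨆ k, ⨆ (_ : r k j), F k := by
      refine inf_le_left.trans ?_
      exact le_iSup₂_of_le i hij le_rfl
    have h2 : F' j ≤ (⨆ k, ⨆ (_ : r k j), F k)ᶜ := inf_le_right
    exact (inf_le_inf h1 h2).trans inf_compl_eq_bot.le
  refine ⟨F', fun i => inf_le_left, ?_, le_antisymm (iSup_mono fun i => inf_le_left) ?_⟩
  · intro i j hij
    rcases trichotomous_of r i j with h | h | h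
    · exact hd i j h
    · exact (hij h).elim
    · rw [inf_comm]; exact hd j i h
  · refine iSup_le fun i => ?_
    induction i using hwf.induction with
    | _ i ih =>
      have h1 : F i ≤ F' i ⊔ ⨆ j, ⨆ (_ : r j i), F j := by
        have : F i = (F i ⊓ (⨆ j, ⨆ (_ : r j i), F j)ᶜ) ⊔ (F i ⊓ ⨆ j, ⨆ (_ : r j i), F j) := by
          rw [← inf_sup_left, sup_comm, sup_compl_eq_top, inf_top_eq]
        rw [this]
        exact sup_le_sup le_rfl inf_le_right
      refine h1.trans (sup_le (le_iSup F' i) ?_)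
      exact iSup₂_le fun j hj => ih j hj

/-- Mixing. -/
theorem exists_mix {ι : Type} (F : ι → B) (τ : ι → BFun B ℕ Y) :
    ∃ (F' : ι → B) (σ : BFun B ℕ Y), (∀ i, F' i ≤ F i) ∧ ⨆ i, F' i = ⨆ i, F i ∧
      ∀ i n s, F' i ⊓ (τ i).val n s ≤ σ.val n s := by
  classical
  obtain ⟨F', h1, h2, h3⟩ := exists_disjoint_refinement F
  let m : B := ⨆ i, F' i
  let d : Y := Classical.arbitrary Y
  have hcross : ∀ i, F' i ⊓ mᶜ = ⊥ := by
    intro i
    rw [← le_bot_iff]
    exact (inf_le_inf (le_iSup F' i) le_rfl).trans inf_compl_eq_bot.le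
  refine ⟨F', ⟨fun n s => (⨆ i, F' i ⊓ (τ i).val n s) ⊔ (mᶜ ⊓ if s = d then ⊤ else ⊥), ?_, ?_⟩,
    h1, h3, ?_⟩
  · intro n s s' hne
    rw [← le_bot_iff, inf_sup_right, inf_sup_left, inf_sup_left]
    refine sup_le (sup_le ?_ ?_) (sup_le ?_ ?_)
    · rw [iSup_inf_eq]
      refine iSup_le fun i => ?_
      rw [inf_iSup_eq]
      refine iSup_le fun j => ?_
      by_cases hij : i = j
      · subst hij
        calc F' i ⊓ (τ i).val n s ⊓ (F' i ⊓ (τ i).val n s')
            ≤ (τ i).val n s ⊓ (τ i).val n s' := inf_le_inf inf_le_right inf_le_right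
          _ = ⊥ := (τ i).disj n s s' hne
          _ ≤ ⊥ := le_rfl
      · exact (inf_le_inf inf_le_left inf_le_left).trans (h2 i j hij).le
    · rw [iSup_inf_eq]
      refine iSup_le fun i => ?_
      exact (inf_le_inf inf_le_left inf_le_left).trans (hcross i).le
    · rw [inf_comm, iSup_inf_eq]
      refine iSup_le fun i => ?_
      exact (inf_le_inf inf_le_left inf_le_left).trans (hcross i).le
    · by_cases hs : s = d
      · have : s' ≠ d := fun h => hne (hs.trans h.symm)
        simp [this]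
      · simp [hs]
  · intro n
    apply top_unique
    have h4 : (⊤ : B) = m ⊔ mᶜ := sup_compl_eq_top.symm
    rw [h4]
    refine sup_le ?_ ?_
    · refine iSup_le fun i => ?_
      have h5 : F' i = ⨆ s, F' i ⊓ (τ i).val n s := by
        rw [← inf_iSup_eq, (τ i).total, inf_top_eq]
      rw [h5]
      refine iSup_mono fun s => ?_
      exact (le_iSup (fun i => F' i ⊓ (τ i).val n s) i).trans le_sup_left
    · refine le_iSup_of_le d ?_
      simp
  · intro i n s
    exact (le_iSup (fun i => F' i ⊓ (τ i).val n s) i).trans le_sup_left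

/-- The value of `X ∈ I_f` witnessed by the code `σ`. -/
def codeVal (f : ℕ → ℕ) (X : SetName B) (σ : BFun B ℕ (List Bool)) : B :=
  llVal f σ ⊓ ⨅ x : BFun B ℕ Bool, (X.val x ⇨ limsupVal σ x)

theorem exists_memVal_eq (f : ℕ → ℕ) (X : SetName B) :
    ∃ σ : BFun B ℕ (List Bool), memVal f X = codeVal f X σ := by
  obtain ⟨F', σ, h1, h2, h3⟩ := exists_mix (fun σ => codeVal f X σ)
    (fun σ : BFun B ℕ (List Bool) => σ)
  refine ⟨σ, le_antisymm ?_ (le_iSup (fun σ => codeVal f X σ) σ)⟩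
  unfold memVal
  refine h2.symm.le.trans (iSup_le fun τ => ?_)
  have hag := ev_eq_gen (h3 τ)
  refine le_inf ?_ (le_iInf fun x => ?_)
  · apply le_of_gen
    filter_upwards [hag, rep_llVal f σ, rep_llVal f τ] with U h4 h5 h6 h7
    have h8 : llVal f τ ∈ U := U.up _ _ ((h1 τ).trans inf_le_left) h7
    rw [h5, ← h4 h7]
    exact h6.1 h8
  · apply le_of_gen
    filter_upwards [hag, rep_limsupVal σ x, rep_limsupVal τ x] with U h4 h5 h6 h7
    rw [Ult.mem_himp]
    intro h8
    have h9 : X.val x ⇨ limsupVal τ x ∈ U :=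
      U.up _ _ ((h1 τ).trans (inf_le_right.trans (iInf_le _ x))) h7
    rw [h5, ← h4 h7]
    exact h6.1 (Ult.mem_himp.1 h9 h8)

end

end Pool.Agent.Lib.MP_7d369a_lc.BV
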