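import Pool.Agent.Lib.MP_7d369a_lc.BV.Enum
import Pool.Agent.Lib.MP_7d369a_lc.BV.MIX

/-!
# Domination and localization of names give capture of codes for `I_id`
-/

set_option autoImplicit false

namespace Pool.Agent.Lib.MP_7d369a_lc.BV

open Filter Pool.Agent.Ladder

/-- the block function, at the levels `2 ^ i` -/
def yfun (t : ℕ → ℕ) (σ : ℕ → List Bool) (n : ℕ) : ℕ :=
  if 2 ^ Nat.log 2 n = n then blk id t σ (Nat.log 2 n) else 0

theorem yfun_pow (t : ℕ → ℕ) (σ : ℕ → List Bool) (i : ℕ) : yfun t σ (2 ^ i) = blk id t σ i := by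
  unfold yfun
  rw [Nat.log_pow (by norm_num), if_pos rfl]

theorem two_mul_le_two_pow (i : ℕ) : 2 * i ≤ 2 ^ i := by
  cases i with
  | zero => simp
  | succ i =>
    have : i < 2 ^ i := Nat.lt_two_pow_self
    rw [pow_succ]; omega

theorem yfun_lt (t : ℕ → ℕ) (σ : ℕ → List Bool) (n : ℕ) : yfun t σ n < bd n := by
  unfold yfun
  split_ifs with h
  · refine (blk_lt monotone_id t σ _).trans_le ?_
    unfold bd
    set i := Nat.log 2 n with hi
    rw [← h]
    apply Nat.pow_le_pow_right (by norm_num)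
    show 2 ^ i * 2 ^ (i ^ 2) ≤ _
    rw [← pow_add]
    apply Nat.pow_le_pow_right (by norm_num)
    have h1 : i + 1 ≤ 2 ^ i := Nat.lt_two_pow_self
    have h2 : i + i ^ 2 ≤ 2 ^ i * 2 ^ i := by nlinarith
    refine h2.trans ?_
    rw [← pow_add]
    apply Nat.pow_le_pow_right (by norm_num)
    have := two_mul_le_two_pow i
    omega
  · unfold bd; positivity

section
variable {B : Type} [CompleteBooleanAlgebra B]

theorem meas_thr (σ : BFun B ℕ (List Bool)) (k : ℕ) :
    Meas (fun U => thr' id (ev σ U) k) := by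
  apply Meas.least
  intro n
  refine MeasP.all fun m => (MeasP.const _).imp ?_
  exact (meas_ev σ m).pred (R := fun _ s => id (m ^ k) ≤ s.length) fun s => MeasP.const _

/-- the name of the threshold function -/
noncomputable def thrName (σ : BFun B ℕ (List Bool)) : BFun B ℕ ℕ :=
  toName (fun U k => thr' id (ev σ U) k) (meas_thr σ)

theorem meas_KK (t : BFun B ℕ ℕ) (i : ℕ) : Meas (fun U => KK (ev t U) i) :=
  Meas.fin (fun n => meas_ev t n) (i + 1) (fun t => KK t i) fun _ _ h => KK_local i h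

theorem meas_blk (t : BFun B ℕ ℕ) (σ : BFun B ℕ (List Bool)) (i : ℕ) :
    Meas (fun U => blk id (ev t U) (ev σ U) i) := by
  have h : ∀ K, Meas (fun U => blkK id K (ev σ U) i) := fun K =>
    Meas.fin (fun n => meas_ev σ n) (2 ^ i + 2 ^ i * id (2 ^ (i * K)))
      (fun σ => blkK id K σ i) fun _ _ h => blkK_local id K i h
  exact (meas_KK t i).comp (F := fun U K => blkK id K (ev σ U) i) h

theorem meas_yfun (t : BFun B ℕ ℕ) (σ : BFun B ℕ (List Bool)) (n : ℕ) :
    Meas (fun U => yfun (ev t U) (ev σ U) n) := by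
  unfold yfun
  split_ifs with h
  · exact meas_blk t σ _
  · exact Meas.const _

/-- the name of the block function -/
noncomputable def yName (t : BFun B ℕ ℕ) (σ : BFun B ℕ (List Bool)) : BFun B ℕ ℕ :=
  toName (fun U n => yfun (ev t U) (ev σ U) n) (meas_yfun t σ)

theorem bdd_yName (t : BFun B ℕ ℕ) (σ : BFun B ℕ (List Bool)) : Bdd (yName t σ) :=
  bdd_toName _ fun _ _ => yfun_lt _ _ _

theorem meas_w6 (t : BFun B ℕ ℕ) (S : BFun B ℕ (Finset ℕ)) (n : ℕ) :
    Meas (fun U => w6 id (ev t U) (fun i => ev S U (2 ^ i)) n) := by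
  have h : ∀ K, Meas (fun U => w6K id n K (ev S U (2 ^ lev (fun j => 4 ^ j) n))) := fun K =>
    (meas_ev S _).map fun e => w6K id n K e
  exact (meas_KK t _).comp (F := fun U K => w6K id n K (ev S U (2 ^ lev (fun j => 4 ^ j) n))) h

/-- the name of the capturing code -/
noncomputable def wName (t : BFun B ℕ ℕ) (S : BFun B ℕ (Finset ℕ)) : BFun B ℕ (List Bool) :=
  toName (fun U n => w6 id (ev t U) (fun i => ev S U (2 ^ i)) n) (meas_w6 t S)

theorem ll_wName (t : BFun B ℕ ℕ) {S : BFun B ℕ (Finset ℕ)} (hS : Slalom S) :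
    llVal id (wName t S) = ⊤ := by
  apply eq_of_gen
  filter_upwards [rep_llVal id (wName t S), toName_gen _ (meas_w6 t S), slalom_gen hS]
    with U h1 h2 h3
  rw [h1]
  refine iff_of_true ?_ Ult.mem_top
  unfold wName
  rw [h2]
  exact (w6_spec strictMono_id _ _ fun j => h3 _).1

theorem cap6 (σ : BFun B ℕ (List Bool)) (t : BFun B ℕ ℕ) {S : BFun B ℕ (Finset ℕ)}
    (hS : Slalom S) (x : BFun B ℕ Bool) :
    llVal id σ ⊓ leStar (thrName σ) t ⊓ inStar (yName t σ) S ⊓ limsupVal σ x ≤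
      limsupVal (wName t S) x := by
  apply le_of_gen
  filter_upwards [rep_llVal id σ, rep_leStar (thrName σ) t, rep_inStar (yName t σ) S,
    rep_limsupVal σ x, rep_limsupVal (wName t S) x, toName_gen _ (meas_thr σ),
    toName_gen _ (meas_yfun t σ), toName_gen _ (meas_w6 t S), slalom_gen hS]
    with U h1 h2 h3 h4 h5 h6 h7 h8 h9
  rw [Ult.mem_inf, Ult.mem_inf, Ult.mem_inf, h1, h2, h3, h4, h5]
  rintro ⟨⟨⟨h10, h11⟩, h12⟩, h13⟩
  unfold thrName at h11
  unfold yName at h12
  unfold wName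
  rw [h6] at h11
  rw [h7] at h12
  rw [h8]
  refine capture6 strictMono_id h10 h11 (fun j => h9 _) ?_ h13
  have hpow : Tendsto (fun i : ℕ => 2 ^ i) atTop atTop :=
    tendsto_pow_atTop_atTop_of_one_lt (by norm_num)
  filter_upwards [hpow.eventually h12] with i hi
  rwa [yfun_pow] at hi

end

end Pool.Agent.Lib.MP_7d369a_lc.BV
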