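import Pool.Agent.Lib.MP_7d369a_lc.BV.Y2
import Pool.Agent.Lib.MP_7d369a_lc.BV.Y6
import Pool.Agent.Lib.MP_62a69e_lc.Basic

/-!
# From the properties of the iterations to `add` and `cof` of the Yorioka ideals
-/

set_option autoImplicit false

namespace Pool.Agent.Lib.MP_7d369a_lc.BV

open Filter Pool.Agent.Ladder Cardinal

section
variable {B : Type} [CompleteBooleanAlgebra B]

theorem codeVal_le_of_cap {X : SetName B} {σ : BFun B ℕ (List Bool)} {t : BFun B ℕ ℕ}
    {S : BFun B ℕ (Finset ℕ)} (hS : Slalom S) (h1 : leStar (thrName σ) t = ⊤)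
    (h2 : inStar (yName t σ) S = ⊤) (x : BFun B ℕ Bool) :
    codeVal id X σ ⊓ X.val x ≤ limsupVal (wName t S) x := by
  refine le_trans ?_ (cap6 σ t hS x)
  rw [h1, h2, inf_top_eq, inf_top_eq]
  refine le_inf (inf_le_left.trans inf_le_left) ?_
  calc codeVal id X σ ⊓ X.val x ≤ (X.val x ⇨ limsupVal σ x) ⊓ X.val x :=
        inf_le_inf (inf_le_right.trans (iInf_le _ x)) le_rfl
    _ ≤ _ := himp_inf_le

theorem addGt_id (H : HitAll B) : addGtVal B id = ⊤ := by
  unfold addGtVal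
  rw [iInf_eq_top]
  intro X
  rw [himp_eq_top_iff]
  choose σ hσ using fun a => exists_memVal_eq id (X a)
  obtain ⟨t, ht⟩ := H.1 (fun a => thrName (σ a))
  obtain ⟨S, hS, hS2⟩ := H.2 (fun a => yName t (σ a)) (fun a => bdd_yName t (σ a))
  refine le_iSup_of_le (wName t S) (le_inf ?_ (le_iInf fun x => ?_))
  · rw [ll_wName t hS]; exact le_top
  · rw [le_himp_iff]
    show (⨅ a, memVal id (X a)) ⊓ (⨆ a, (X a).val x) ≤ _
    rw [inf_iSup_eq]
    refine iSup_le fun a => ?_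
    refine le_trans (inf_le_inf (iInf_le _ a) le_rfl) ?_
    rw [hσ a]
    exact codeVal_le_of_cap hS (ht a) (hS2 a) x

theorem exists_pair_surj : ∃ e : W → W × W, Function.Surjective e := by
  have h1 : #(W × W) = #W := by
    rw [Cardinal.mk_prod, Cardinal.lift_id, mk_W]
    exact Cardinal.mul_eq_self (aleph0_le_aleph 1)
  obtain ⟨e⟩ := Cardinal.eq.1 h1
  exact ⟨e.symm, e.symm.surjective⟩

theorem cofLe_id (H : HitEach B) : cofLeVal B id = ⊤ := by
  obtain ⟨⟨h, hh⟩, S, hS, hS2⟩ := H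
  obtain ⟨e, he⟩ := exists_pair_surj
  apply top_unique
  unfold cofLeVal
  refine le_iSup_of_le (fun c => limName (wName (h (e c).1) (S (e c).2))) (le_inf ?_ ?_)
  · refine le_iInf fun c => ?_
    refine le_iSup_of_le (wName (h (e c).1) (S (e c).2)) (le_inf ?_ (le_iInf fun x => ?_))
    · rw [ll_wName _ (hS _)]
    · rw [le_himp_iff]; exact inf_le_right
  · refine le_iInf fun Y => ?_
    rw [le_himp_iff, top_inf_eq]
    obtain ⟨σ, hσ⟩ := exists_memVal_eq id Y
    rw [hσ]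
    obtain ⟨a, ha⟩ := hh (thrName σ)
    obtain ⟨b, hb⟩ := hS2 (yName (h a) σ) (bdd_yName _ _)
    obtain ⟨c, hc⟩ := he (a, b)
    refine le_iSup_of_le c (le_iInf fun x => ?_)
    rw [le_himp_iff]
    show _ ≤ limsupVal (wName (h (e c).1) (S (e c).2)) x
    rw [hc]
    exact codeVal_le_of_cap (hS b) ha hb x

/-! ### The negative parts -/

theorem ex_succ (k n : ℕ) : ex (k+1) n = 2 ^ ex k n := by
  unfold ex
  rw [Function.iterate_succ_apply']

theorem ex_succ' (k n : ℕ) : ex (k+1) n = ex k (2 ^ n) := by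
  unfold ex
  rw [Function.iterate_succ_apply]

theorem ex_mono (k : ℕ) : Monotone (ex k) := by
  induction k with
  | zero => exact monotone_id
  | succ k ih =>
    intro a b hab
    rw [ex_succ, ex_succ]
    exact Nat.pow_le_pow_right (by norm_num) (ih hab)

theorem sq_le_two_pow' {m : ℕ} (h : 4 ≤ m) : m ^ 2 ≤ 2 ^ m := by
  induction m, h using Nat.le_induction with
  | base => norm_num
  | succ n hn ih =>
    calc (n + 1) ^ 2 ≤ 2 * n ^ 2 := by nlinarith
      _ ≤ 2 * 2 ^ n := Nat.mul_le_mul_left _ ih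
      _ = 2 ^ (n + 1) := by ring

theorem fast_fp {f : ℕ → ℕ} (hf : StrictMono f)
    (h : ∀ k, ¬ ∀ᶠ n in atTop, f n ≤ (fun m => 2 ^ m)^[k] n) : Fast (fp f) := by
  intro k N
  have h1 := h (k + 2)
  rw [not_eventually, frequently_atTop] at h1
  obtain ⟨m, hm, hlt⟩ := h1 (N + 4)
  push Not at hlt
  change ex (k + 2) m < f m at hlt
  set s := Nat.clog 2 m with hs
  have hms : m ≤ 2 ^ s := Nat.le_pow_clog (by norm_num) m
  have hsm : s ≤ m := by
    apply Nat.clog_le_of_le_pow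
    exact Nat.lt_two_pow_self.le
  have hs1 : 1 ≤ s := by
    by_contra hcon
    have : s = 0 := by omega
    rw [this] at hms
    omega
  refine ⟨2 ^ (s ^ 2), ?_, ?_⟩
  · calc N ≤ m := by omega
      _ ≤ 2 ^ s := hms
      _ ≤ 2 ^ (s ^ 2) := Nat.pow_le_pow_right (by norm_num) (Nat.le_self_pow (by norm_num) s)
  · have h2 : fp f (2 ^ (s ^ 2)) = f (2 ^ (2 * s)) := by
      unfold fp
      rw [Nat.log_pow (by norm_num), if_pos rfl]
      unfold a2
      rw [Nat.sqrt_eq']
    rw [h2]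
    calc ex k (2 ^ (s ^ 2)) ≤ ex k (2 ^ (2 ^ m)) := by
          apply ex_mono
          apply Nat.pow_le_pow_right (by norm_num)
          exact (Nat.pow_le_pow_left hsm 2).trans (sq_le_two_pow' (by omega))
      _ = ex (k + 2) m := by rw [ex_succ', ex_succ']
      _ < f m := hlt
      _ ≤ f (2 ^ (2 * s)) := hf.monotone (hms.trans (Nat.pow_le_pow_right (by norm_num) (by omega)))

theorem codeVal_mono {f : ℕ → ℕ} {X Y : SetName B} {σ : BFun B ℕ (List Bool)}
    (h : ∀ x, X.val x ≤ Y.val x) : codeVal f Y σ ≤ codeVal f X σ :=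
  inf_le_inf le_rfl (iInf_mono fun x => himp_le_himp_right (h x))

theorem addGt_fast {A : Type} [Uncountable A] (e : W → A) (he : Function.Surjective e)
    {c : A → BFun B ℕ ℕ} {f : ℕ → ℕ} (hf : StrictMono f)
    (H : ∀ S : BFun B ℕ (Finset ℕ), Slalom S → {a | modStar (fp f) (c a) S ≠ ⊥}.Countable) :
    addGtVal B f = ⊥ := by
  unfold addGtVal
  apply bot_unique
  refine (iInf_le _ (fun a => setC f (c (e a)))).trans ?_
  have h1 : (⨅ a, memVal f (setC f (c (e a)))) = ⊤ := by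
    rw [iInf_eq_top]
    exact fun a => memVal_setC hf _
  rw [h1, top_himp]
  obtain ⟨σ, hσ⟩ := exists_memVal_eq f (unionName fun a => setC f (c (e a)))
  rw [hσ]
  obtain ⟨a, ha⟩ : ∃ a, modStar (fp f) (c a) (w2Name f σ) = ⊥ := by
    by_contra hcon
    push Not at hcon
    have h2 := H _ (slalom_w2Name f σ)
    have h3 : {a | modStar (fp f) (c a) (w2Name f σ) ≠ ⊥} = Set.univ := by
      ext a; simp [hcon a]
    rw [h3, Set.countable_univ_iff] at h2
    exact not_countable h2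
  obtain ⟨b, rfl⟩ := he a
  refine (codeVal_mono (X := setC f (c (e b))) fun x => ?_).trans
    ((codeVal_setC_le hf (c (e b)) σ).trans ha.le)
  exact le_iSup (fun a => (setC f (c (e a))).val x) b

theorem cofLe_fast {A : Type} (hA : ℵ₁ < #A)
    {c : A → BFun B ℕ ℕ} {f : ℕ → ℕ} (hf : StrictMono f)
    (H : ∀ S : BFun B ℕ (Finset ℕ), Slalom S → {a | modStar (fp f) (c a) S ≠ ⊥}.Countable) :
    cofLeVal B f = ⊥ := by
  unfold cofLeVal
  apply bot_unique
  refine iSup_le fun X => ?_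
  choose σ hσ using fun a => exists_memVal_eq f (X a)
  have h1 : #(⋃ a : W, {b | modStar (fp f) (c b) (w2Name f (σ a)) ≠ ⊥} : Set A) ≤ ℵ₁ := by
    refine (mk_iUnion_le_sum_mk).trans ?_
    refine (Cardinal.sum_le_sum _ (fun _ => ℵ₀) fun a => (H _ (slalom_w2Name f (σ a))).le_aleph0).trans ?_
    rw [Cardinal.sum_const', mk_W]
    exact (mul_le_mul' le_rfl (aleph0_le_aleph 1)).trans (mul_eq_self (aleph0_le_aleph 1)).le
  obtain ⟨b, hb⟩ : ∃ b, b ∉ (⋃ a : W, {b | modStar (fp f) (c b) (w2Name f (σ a)) ≠ ⊥} : Set A) := by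
    by_contra hcon
    push Not at hcon
    rw [Set.eq_univ_of_forall hcon, mk_univ] at h1
    exact absurd h1 (not_le.2 hA)
  simp only [Set.mem_iUnion, Set.mem_ofPred_eq, not_exists, not_not] at hb
  have h2 : (⨅ Y : SetName B, (memVal f Y ⇨ ⨆ a, subVal Y (X a))) ≤
      ⨆ a, subVal (setC f (c b)) (X a) := by
    refine (iInf_le _ (setC f (c b))).trans ?_
    rw [memVal_setC hf, top_himp]
  refine (inf_le_inf le_rfl h2).trans ?_
  rw [inf_iSup_eq]
  refine iSup_le fun a => ?_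
  refine (inf_le_inf (iInf_le _ a) le_rfl).trans ?_
  rw [hσ a]
  refine le_trans ?_ ((codeVal_setC_le hf (c b) (σ a)).trans (hb a).le)
  refine le_inf (inf_le_left.trans inf_le_left) (le_iInf fun x => ?_)
  have h3 : codeVal f (X a) (σ a) ≤ (X a).val x ⇨ limsupVal (σ a) x :=
    inf_le_right.trans (iInf_le _ x)
  have h4 : subVal (setC f (c b)) (X a) ≤ (setC f (c b)).val x ⇨ (X a).val x := iInf_le _ x
  refine (inf_le_inf h3 h4).trans ?_
  rw [inf_comm]
  exact himp_triangle _ _ _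

end

/-- The additivity theorem, from the properties of the iteration. -/
theorem add_theorem
    (H : ∃ (B : Type) (_ : CompleteBooleanAlgebra B), Nontrivial B ∧ BCCC B ∧ HitAll B ∧
      Unb B W) :
    ∃ (B : Type) (_ : CompleteBooleanAlgebra B), Nontrivial B ∧ BCCC B ∧ addGtVal B id = ⊤ ∧
      ∀ f : ℕ → ℕ, StrictMono f → (∀ k, ¬ ∀ᶠ n in atTop, f n ≤ (fun m => 2 ^ m)^[k] n) →
        addGtVal B f = ⊥ := by
  obtain ⟨B, i, h1, h2, h3, c, h4⟩ := H
  refine ⟨B, i, h1, h2, addGt_id h3, fun f hf hfast => ?_⟩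
  exact addGt_fast (fun a : W => a) Function.surjective_id hf (h4 _ (fast_fp hf hfast))

/-- The cofinality theorem, from the properties of the iteration. -/
theorem cof_theorem
    (H : ∃ (B : Type) (_ : CompleteBooleanAlgebra B), Nontrivial B ∧ BCCC B ∧ HitEach B ∧
      ∃ A : Type, ℵ₁ < #A ∧ Unb B A) :
    ∃ (B : Type) (_ : CompleteBooleanAlgebra B), Nontrivial B ∧ BCCC B ∧ cofLeVal B id = ⊤ ∧
      ∀ f : ℕ → ℕ, StrictMono f → (∀ k, ¬ ∀ᶠ n in atTop, f n ≤ (fun m => 2 ^ m)^[k] n) →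
        cofLeVal B f = ⊥ := by
  obtain ⟨B, i, h1, h2, h3, A, hA, c, h4⟩ := H
  refine ⟨B, i, h1, h2, cofLe_id h3, fun f hf hfast => ?_⟩
  exact cofLe_fast hA hf (h4 _ (fast_fp hf hfast))

end Pool.Agent.Lib.MP_7d369a_lc.BV
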