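import Pool.Agent.Lib.MP_62a69e_lc.RO

/-!
# Interface between the iterations and the Yorioka ideals

`B` is a complete Boolean algebra, `BFun B X Y` (from `MP_62a69e_lc.Defs`) are the `B`-names of
functions, `W` is `ω₁`.
-/

set_option autoImplicit false

namespace Pool.Agent.Lib.MP_7d369a_lc.BV

open Pool.Agent.Ladder

section
variable {B : Type} [CompleteBooleanAlgebra B]

/-- The value of `x n ≤ h n for all but finitely many n`. -/
def leStar (x h : BFun B ℕ ℕ) : B :=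
  ⨆ N : ℕ, ⨅ n : ℕ, ⨅ (_ : N ≤ n), ⨆ v : ℕ, ⨆ w : ℕ, ⨆ (_ : v ≤ w), x.val n v ⊓ h.val n w

/-- The value of `x n ∈ S n for all but finitely many n`. -/
def inStar (x : BFun B ℕ ℕ) (S : BFun B ℕ (Finset ℕ)) : B :=
  ⨆ N : ℕ, ⨅ n : ℕ, ⨅ (_ : N ≤ n), ⨆ v : ℕ, ⨆ e : Finset ℕ, ⨆ (_ : v ∈ e), x.val n v ⊓ S.val n e

/-- The value of `x n mod 2 ^ (f n) ∈ S n for all but finitely many n`. -/
def modStar (f : ℕ → ℕ) (x : BFun B ℕ ℕ) (S : BFun B ℕ (Finset ℕ)) : B :=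
  ⨆ N : ℕ, ⨅ n : ℕ, ⨅ (_ : N ≤ n), ⨆ v : ℕ, ⨆ e : Finset ℕ, ⨆ (_ : v % 2 ^ f n ∈ e),
    x.val n v ⊓ S.val n e

/-- `S` is a name of a slalom of width `n` at `n`. -/
def Slalom (S : BFun B ℕ (Finset ℕ)) : Prop := ∀ n e, n < e.card → S.val n e = ⊥

/-- The bound of the functions to be localized. -/
def bd (n : ℕ) : ℕ := 2 ^ 2 ^ 2 ^ n

/-- `x` is a name of a function below `bd`. -/
def Bdd (x : BFun B ℕ ℕ) : Prop := ∀ n v, bd n ≤ v → x.val n v = ⊥

end

/-- Iterated exponentials. -/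
def ex (k n : ℕ) : ℕ := (fun m => 2 ^ m)^[k] n

/-- `f` is not eventually below any iterated exponential. -/
def Fast (f : ℕ → ℕ) : Prop := ∀ k N, ∃ n, N ≤ n ∧ ex k n < f n

/-- Every `ω₁`-sequence of names has a single bound and a single localizing slalom. -/
def HitAll (B : Type) [CompleteBooleanAlgebra B] : Prop :=
  (∀ x : W → BFun B ℕ ℕ, ∃ h : BFun B ℕ ℕ, ∀ a, leStar (x a) h = ⊤) ∧
  (∀ x : W → BFun B ℕ ℕ, (∀ a, Bdd (x a)) →
    ∃ S : BFun B ℕ (Finset ℕ), Slalom S ∧ ∀ a, inStar (x a) S = ⊤)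

/-- There are `ℵ₁` names of functions dominating all names, and `ℵ₁` names of slaloms localizing
all bounded names. -/
def HitEach (B : Type) [CompleteBooleanAlgebra B] : Prop :=
  (∃ h : W → BFun B ℕ ℕ, ∀ x : BFun B ℕ ℕ, ∃ a, leStar x (h a) = ⊤) ∧
  (∃ S : W → BFun B ℕ (Finset ℕ), (∀ a, Slalom (S a)) ∧
    ∀ x : BFun B ℕ ℕ, Bdd x → ∃ a, inStar x (S a) = ⊤)

/-- There is a family of names of functions indexed by `A` such that for every fast `f` every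
name of a slalom catches (with nonzero value) only countably many of them modulo `2 ^ f`. -/
def Unb (B : Type) [CompleteBooleanAlgebra B] (A : Type) : Prop :=
  ∃ c : A → BFun B ℕ ℕ, ∀ f : ℕ → ℕ, Fast f →
    ∀ S : BFun B ℕ (Finset ℕ), Slalom S → {a | modStar f (c a) S ≠ ⊥}.Countable

end Pool.Agent.Lib.MP_7d369a_lc.BV
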