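import Mathlib

/-!
# Generic ultrafilters of a complete Boolean algebra (Rasiowa–Sikorski)

`gen B` is the filter of those sets of ultrafilters of `B` which contain all ultrafilters
respecting the members of some countable family of countable suprema. `MeasP p` says that the
property `p` of ultrafilters is represented by an element of `B`.
-/

set_option autoImplicit false

namespace Pool.Agent.Lib.MP_7d369a_lc.BV

open Filter

/-- Ultrafilters of a Boolean algebra. -/
structure Ult (B : Type) [CompleteBooleanAlgebra B] where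
  carrier : Set B
  top_mem : ⊤ ∈ carrier
  bot_notMem : ⊥ ∉ carrier
  inf_mem : ∀ a b, a ∈ carrier → b ∈ carrier → a ⊓ b ∈ carrier
  up : ∀ a b, a ≤ b → a ∈ carrier → b ∈ carrier
  prime : ∀ a, a ∈ carrier ∨ aᶜ ∈ carrier

section
variable {B : Type} [CompleteBooleanAlgebra B]

instance : Membership B (Ult B) := ⟨fun U a => a ∈ U.carrier⟩

theorem Ult.mem_inf {U : Ult B} {a b : B} : a ⊓ b ∈ U ↔ a ∈ U ∧ b ∈ U :=
  ⟨fun h => ⟨U.up _ _ inf_le_left h, U.up _ _ inf_le_right h⟩, fun h => U.inf_mem _ _ h.1 h.2⟩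

theorem Ult.mem_compl {U : Ult B} {a : B} : aᶜ ∈ U ↔ a ∉ U := by
  constructor
  · intro h h'
    apply U.bot_notMem
    have := U.inf_mem _ _ h' h
    rwa [inf_compl_eq_bot] at this
  · intro h
    exact (U.prime a).resolve_left h

theorem Ult.mem_sup {U : Ult B} {a b : B} : a ⊔ b ∈ U ↔ a ∈ U ∨ b ∈ U := by
  have h : a ⊔ b = (aᶜ ⊓ bᶜ)ᶜ := by simp
  rw [h, Ult.mem_compl, Ult.mem_inf, Ult.mem_compl, Ult.mem_compl]
  tauto

theorem Ult.mem_himp {U : Ult B} {a b : B} : a ⇨ b ∈ U ↔ (a ∈ U → b ∈ U) := by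
  rw [himp_eq, Ult.mem_sup, Ult.mem_compl]
  tauto

theorem Ult.mem_top {U : Ult B} : ⊤ ∈ U := U.top_mem

theorem Ult.not_mem_bot {U : Ult B} : ¬ ⊥ ∈ U := U.bot_notMem

/-- `U` respects the suprema `⨆ k, S n k`. -/
def Gen (S : ℕ → ℕ → B) : Set (Ult B) := {U | ∀ n, (⨆ k, S n k) ∈ U → ∃ k, S n k ∈ U}

/-- Rasiowa–Sikorski. -/
theorem exists_gen {p : B} (hp : p ≠ ⊥) (S : ℕ → ℕ → B) : ∃ U ∈ Gen S, p ∈ U := by
  classical
  have step : ∀ (q : {q : B // q ≠ ⊥}) (n : ℕ), ∃ r : {q : B // q ≠ ⊥}, r.1 ≤ q.1 ∧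
      (r.1 ≤ (⨆ k, S n k)ᶜ ∨ ∃ k, r.1 ≤ S n k) := by
    rintro ⟨q, hq⟩ n
    by_cases h : q ⊓ (⨆ k, S n k)ᶜ = ⊥
    · have hle : q ≤ ⨆ k, S n k := disjoint_compl_right_iff.1 (disjoint_iff.2 h)
      have : ∃ k, q ⊓ S n k ≠ ⊥ := by
        by_contra hcon
        push Not at hcon
        apply hq
        rw [← inf_eq_left.2 hle, inf_iSup_eq]
        simp [hcon]
      obtain ⟨k, hk⟩ := this
      exact ⟨⟨_, hk⟩, inf_le_left, Or.inr ⟨k, inf_le_right⟩⟩
    · exact ⟨⟨_, h⟩, inf_le_left, Or.inl inf_le_right⟩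
  choose f hf1 hf2 using step
  let q : ℕ → {q : B // q ≠ ⊥} := fun n => Nat.rec ⟨p, hp⟩ (fun n q => f q n) n
  have hq : ∀ n, q (n+1) = f (q n) n := fun n => rfl
  have hanti : ∀ n m, n ≤ m → (q m).1 ≤ (q n).1 := by
    intro n m hnm
    induction m, hnm using Nat.le_induction with
    | base => exact le_rfl
    | succ m _ ih => exact (hf1 _ _).trans ih
  -- the filter generated by the `q n`
  have hF : Order.IsPFilter {a : B | ∃ n, (q n).1 ≤ a} := by
    refine Order.IsPFilter.of_def ⟨(q 0).1, 0, le_rfl⟩ ?_ ?_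
    · rintro a ⟨n, hn⟩ b ⟨m, hm⟩
      refine ⟨(q (max n m)).1, ⟨_, le_rfl⟩, ?_, ?_⟩
      · exact (hanti _ _ (le_max_left _ _)).trans hn
      · exact (hanti _ _ (le_max_right _ _)).trans hm
    · rintro a b hab ⟨n, hn⟩
      exact ⟨n, hn.trans hab⟩
  obtain ⟨J, hJ1, _, hJ3⟩ := DistribLattice.prime_ideal_of_disjoint_filter_ideal
    (F := hF.toPFilter) (I := Order.Ideal.principal (⊥ : B)) (by
      rw [Set.disjoint_left]
      intro a ha hb
      obtain ⟨n, hn⟩ := ha
      have : a ≤ ⊥ := hb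
      exact (q n).2 (le_bot_iff.1 (hn.trans this)))
  have hnot : ∀ n, (q n).1 ∉ J := fun n h => Set.disjoint_left.1 hJ3 ⟨n, le_rfl⟩ h
  have hJp : ∀ a b : B, a ⊓ b ∈ J → a ∈ J ∨ b ∈ J := fun a b h => hJ1.mem_or_mem h
  have htop : (⊤ : B) ∉ J := fun h => hnot 0 (J.lower le_top h)
  let U : Ult B :=
    { carrier := {a | a ∉ J}
      top_mem := htop
      bot_notMem := fun h => h J.bot_mem
      inf_mem := fun a b ha hb h => (hJp a b h).elim ha hb
      up := fun a b hab ha hb => ha (J.lower hab hb)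
      prime := fun a => by
        by_contra hcon
        simp only [Set.mem_ofPred_eq, not_or, not_not] at hcon
        apply htop
        have := J.sup_mem hcon.1 hcon.2
        rwa [sup_compl_eq_top] at this }
  refine ⟨U, ?_, hnot 0⟩
  intro n hn
  rcases hf2 (q n) n with h | ⟨k, hk⟩
  · exfalso
    exact Ult.mem_compl.1 (U.up _ _ h (hnot (n+1))) hn
  · exact ⟨k, U.up _ _ hk (hnot (n+1))⟩

variable (B) in
/-- The filter of generic ultrafilters. -/
def gen : Filter (Ult B) where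
  sets := {A | ∃ S : ℕ → ℕ → B, Gen S ⊆ A}
  univ_sets := ⟨fun _ _ => ⊥, Set.subset_univ _⟩
  sets_of_superset := fun ⟨S, hS⟩ h => ⟨S, hS.trans h⟩
  inter_sets := by
    rintro A A' ⟨S, hS⟩ ⟨S', hS'⟩
    refine ⟨fun n => if n % 2 = 0 then S (n / 2) else S' (n / 2), ?_⟩
    intro U hU
    refine ⟨hS fun n hn => ?_, hS' fun n hn => ?_⟩
    · have := hU (2 * n)
      simp only [Nat.mul_mod_right, ↓reduceIte, ne_eq, OfNat.ofNat_ne_zero, not_false_eq_true,
        mul_div_cancel_left₀] at this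
      exact this hn
    · have := hU (2 * n + 1)
      have h1 : (2 * n + 1) % 2 = 1 := by omega
      have h2 : (2 * n + 1) / 2 = n := by omega
      simp only [h1, h2, one_ne_zero, ↓reduceIte] at this
      exact this hn

theorem mem_gen {A : Set (Ult B)} : A ∈ gen B ↔ ∃ S : ℕ → ℕ → B, Gen S ⊆ A := Iff.rfl

theorem eventually_forall_nat {p : ℕ → Ult B → Prop} (h : ∀ n, ∀ᶠ U in gen B, p n U) :
    ∀ᶠ U in gen B, ∀ n, p n U := by
  have h' : ∀ n, ∃ S : ℕ → ℕ → B, Gen S ⊆ {U | p n U} := h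
  choose S hS using h'
  refine mem_gen.2 ⟨fun m => S (Nat.unpair m).1 (Nat.unpair m).2, fun U hU n => ?_⟩
  apply hS n
  intro k hk
  have := hU (Nat.pair n k)
  simp only [Nat.unpair_pair] at this
  exact this hk

theorem eventually_forall {ι : Sort*} [Countable ι] {p : ι → Ult B → Prop}
    (h : ∀ i, ∀ᶠ U in gen B, p i U) : ∀ᶠ U in gen B, ∀ i, p i U := by
  rcases isEmpty_or_nonempty ι with h0 | h0
  · exact Eventually.of_forall fun U i => (h0.false i).elim
  · obtain ⟨g, hg⟩ := exists_surjective_nat ι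
    filter_upwards [eventually_forall_nat fun n => h (g n)] with U hU i
    obtain ⟨n, rfl⟩ := hg i
    exact hU n

theorem exists_of_eventually {p : B} (hp : p ≠ ⊥) {q : Ult B → Prop} (h : ∀ᶠ U in gen B, q U) :
    ∃ U, q U ∧ p ∈ U := by
  obtain ⟨S, hS⟩ := mem_gen.1 h
  obtain ⟨U, hU, hpU⟩ := exists_gen hp S
  exact ⟨U, hS hU, hpU⟩

theorem le_of_gen {a b : B} (h : ∀ᶠ U in gen B, a ∈ U → b ∈ U) : a ≤ b := by
  by_contra hcon
  have hne : a ⊓ bᶜ ≠ ⊥ := by
    intro h0
    exact hcon (disjoint_compl_right_iff.1 (disjoint_iff.2 h0))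
  obtain ⟨U, h1, h2⟩ := exists_of_eventually hne h
  rw [Ult.mem_inf, Ult.mem_compl] at h2
  exact h2.2 (h1 h2.1)

theorem eq_of_gen {a b : B} (h : ∀ᶠ U in gen B, a ∈ U ↔ b ∈ U) : a = b :=
  le_antisymm (le_of_gen (h.mono fun _ h => h.1)) (le_of_gen (h.mono fun _ h => h.2))

theorem gen_iSup_nat (F : ℕ → B) : ∀ᶠ U in gen B, (⨆ i, F i) ∈ U ↔ ∃ i, F i ∈ U := by
  refine mem_gen.2 ⟨fun _ => F, fun U hU => ⟨fun h => hU 0 h, ?_⟩⟩
  rintro ⟨i, hi⟩
  exact U.up _ _ (le_iSup F i) hi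

theorem gen_iSup {ι : Sort*} [Countable ι] (F : ι → B) :
    ∀ᶠ U in gen B, (⨆ i, F i) ∈ U ↔ ∃ i, F i ∈ U := by
  rcases isEmpty_or_nonempty ι with h0 | h0
  · refine Eventually.of_forall fun U => ?_
    rw [iSup_of_empty]
    simp only [IsEmpty.exists_iff, iff_false]
    exact Ult.not_mem_bot
  · obtain ⟨g, hg⟩ := exists_surjective_nat ι
    filter_upwards [gen_iSup_nat fun n => F (g n)] with U hU
    rw [← hg.iSup_comp, hU]
    constructor
    · rintro ⟨n, hn⟩; exact ⟨_, hn⟩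
    · rintro ⟨i, hi⟩
      obtain ⟨n, rfl⟩ := hg i
      exact ⟨n, hi⟩

theorem gen_iInf {ι : Sort*} [Countable ι] (F : ι → B) :
    ∀ᶠ U in gen B, (⨅ i, F i) ∈ U ↔ ∀ i, F i ∈ U := by
  filter_upwards [gen_iSup fun i => (F i)ᶜ] with U hU
  have h : (⨅ i, F i) = (⨆ i, (F i)ᶜ)ᶜ := by rw [compl_iSup]; simp
  rw [h, Ult.mem_compl, hU]
  push Not
  exact forall_congr' fun i => by rw [Ult.mem_compl, not_not]

/-- `p` is represented by an element of `B`. -/
def MeasP (p : Ult B → Prop) : Prop := ∃ b : B, ∀ᶠ U in gen B, p U ↔ b ∈ U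

open Classical in
/-- The element of `B` representing `p`. -/
noncomputable def bv (p : Ult B → Prop) : B := if h : MeasP p then h.choose else ⊥

theorem bv_spec {p : Ult B → Prop} (h : MeasP p) : ∀ᶠ U in gen B, bv p ∈ U ↔ p U := by
  unfold bv
  rw [dif_pos h]
  exact h.choose_spec.mono fun _ h => h.symm

theorem MeasP.mem (b : B) : MeasP (fun U : Ult B => b ∈ U) :=
  ⟨b, Eventually.of_forall fun _ => Iff.rfl⟩

theorem MeasP.congr {p q : Ult B → Prop} (hp : MeasP p) (h : ∀ᶠ U in gen B, q U ↔ p U) :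
    MeasP q := by
  obtain ⟨b, hb⟩ := hp
  exact ⟨b, by filter_upwards [hb, h] with U h1 h2; rw [h2, h1]⟩

theorem MeasP.const (P : Prop) : MeasP (fun _ : Ult B => P) := by
  by_cases h : P
  · exact ⟨⊤, Eventually.of_forall fun U => by simp [h, Ult.mem_top]⟩
  · exact ⟨⊥, Eventually.of_forall fun U => by simp [h, Ult.not_mem_bot]⟩

theorem MeasP.not {p : Ult B → Prop} (hp : MeasP p) : MeasP (fun U => ¬ p U) := by
  obtain ⟨b, hb⟩ := hp
  exact ⟨bᶜ, hb.mono fun U h => by rw [Ult.mem_compl]; exact not_congr h⟩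

theorem MeasP.and {p q : Ult B → Prop} (hp : MeasP p) (hq : MeasP q) :
    MeasP (fun U => p U ∧ q U) := by
  obtain ⟨b, hb⟩ := hp
  obtain ⟨c, hc⟩ := hq
  exact ⟨b ⊓ c, by filter_upwards [hb, hc] with U h1 h2; rw [Ult.mem_inf]; exact and_congr h1 h2⟩

theorem MeasP.or {p q : Ult B → Prop} (hp : MeasP p) (hq : MeasP q) :
    MeasP (fun U => p U ∨ q U) := by
  obtain ⟨b, hb⟩ := hp
  obtain ⟨c, hc⟩ := hq
  exact ⟨b ⊔ c, by filter_upwards [hb, hc] with U h1 h2; rw [Ult.mem_sup]; exact or_congr h1 h2⟩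

theorem MeasP.imp {p q : Ult B → Prop} (hp : MeasP p) (hq : MeasP q) :
    MeasP (fun U => p U → q U) := by
  obtain ⟨b, hb⟩ := hp
  obtain ⟨c, hc⟩ := hq
  exact ⟨b ⇨ c, by filter_upwards [hb, hc] with U h1 h2; rw [Ult.mem_himp]; exact imp_congr h1 h2⟩

theorem MeasP.iff {p q : Ult B → Prop} (hp : MeasP p) (hq : MeasP q) :
    MeasP (fun U => p U ↔ q U) := by
  have := (hp.imp hq).and (hq.imp hp)
  exact this.congr (Eventually.of_forall fun U => by constructor <;> intro h; exacts [⟨h.1, h.2⟩, ⟨h.1, h.2⟩])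

theorem MeasP.ex {ι : Sort*} [Countable ι] {p : ι → Ult B → Prop} (hp : ∀ i, MeasP (p i)) :
    MeasP (fun U => ∃ i, p i U) := by
  choose b hb using hp
  refine ⟨⨆ i, b i, ?_⟩
  filter_upwards [eventually_forall hb, gen_iSup b] with U h1 h2
  rw [h2]
  exact exists_congr fun i => h1 i

theorem MeasP.all {ι : Sort*} [Countable ι] {p : ι → Ult B → Prop} (hp : ∀ i, MeasP (p i)) :
    MeasP (fun U => ∀ i, p i U) := by
  choose b hb using hp
  refine ⟨⨅ i, b i, ?_⟩
  filter_upwards [eventually_forall hb, gen_iInf b] with U h1 h2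
  rw [h2]
  exact forall_congr' fun i => h1 i

/-- A function into a countable type is measurable. -/
def Meas {Y : Type} (X : Ult B → Y) : Prop := ∀ v, MeasP (fun U => X U = v)

theorem Meas.const {Y : Type} (y : Y) : Meas (fun _ : Ult B => y) := fun _ => MeasP.const _

theorem Meas.pred {Y : Type} [Countable Y] {X : Ult B → Y} (hX : Meas X)
    {R : Ult B → Y → Prop} (hR : ∀ v, MeasP (fun U => R U v)) : MeasP (fun U => R U (X U)) := by
  have := MeasP.ex fun v : Y => (hX v).and (hR v)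
  refine this.congr (Eventually.of_forall fun U => ?_)
  constructor
  · intro h; exact ⟨X U, rfl, h⟩
  · rintro ⟨v, hv, h⟩; rw [hv]; exact h

theorem Meas.comp {Y Z : Type} [Countable Y] {X : Ult B → Y} (hX : Meas X)
    {F : Ult B → Y → Z} (hF : ∀ v, Meas (fun U => F U v)) : Meas (fun U => F U (X U)) :=
  fun z => hX.pred (R := fun U v => F U v = z) fun v => hF v z

theorem Meas.map {Y Z : Type} [Countable Y] {X : Ult B → Y} (hX : Meas X) (F : Y → Z) :
    Meas (fun U => F (X U)) :=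
  hX.comp (F := fun _ v => F v) fun _ => Meas.const _

theorem Meas.pair {Y Z : Type} {X : Ult B → Y} {X' : Ult B → Z} (hX : Meas X) (hX' : Meas X') :
    Meas (fun U => (X U, X' U)) := by
  rintro ⟨v, v'⟩
  exact ((hX v).and (hX' v')).congr (Eventually.of_forall fun U => by simp)

/-- A function depending only on finitely many coordinates. -/
theorem Meas.fin {Y Z : Type} [Countable Y] {X : Ult B → ℕ → Y} (hX : ∀ n, Meas (fun U => X U n))
    (N : ℕ) (F : (ℕ → Y) → Z) (hF : ∀ x x', (∀ n < N, x n = x' n) → F x = F x') :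
    Meas (fun U => F (X U)) := by
  classical
  rcases isEmpty_or_nonempty (ℕ → Y) with h0 | ⟨⟨d⟩⟩
  · intro z
    exact (MeasP.const True).congr (Eventually.of_forall fun U => (h0.false (X U)).elim)
  have h1 : Meas (fun U => fun i : Fin N => X U i) := by
    intro r
    refine (MeasP.all fun i : Fin N => hX i (r i)).congr (Eventually.of_forall fun U => ?_)
    exact funext_iff
  have h2 := h1.map (fun r : Fin N → Y => F (fun n => if h : n < N then r ⟨n, h⟩ else d n))
  have h3 : (fun U => F (X U)) = fun U => (fun r : Fin N → Y =>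
      F (fun n => if h : n < N then r ⟨n, h⟩ else d n)) (fun i : Fin N => X U i) := by
    funext U
    apply hF
    intro n hn
    simp [hn]
  rw [h3]
  exact h2

/-- The least natural number with a property, `0` if there is none. -/
theorem Meas.least {p : ℕ → Ult B → Prop} (hp : ∀ n, MeasP (p n)) :
    Meas (fun U => sInf {n | p n U}) := by
  intro v
  have h1 : MeasP (fun U => (p v U ∧ ∀ w : ℕ, w < v → ¬ p w U) ∨ (v = 0 ∧ ∀ w, ¬ p w U)) :=
    ((hp v).and (MeasP.all fun w => (MeasP.const _).imp (hp w).not)).or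
      ((MeasP.const _).and (MeasP.all fun w => (hp w).not))
  refine h1.congr (Eventually.of_forall fun U => ?_)
  constructor
  · rintro rfl
    by_cases h : {n | p n U}.Nonempty
    · exact Or.inl ⟨Nat.sInf_mem h, fun w hw => Nat.notMem_of_lt_sInf hw⟩
    · right
      rw [Set.not_nonempty_iff_eq_empty] at h
      refine ⟨by show sInf {n | p n U} = 0; rw [h]; simp, fun w hw => ?_⟩
      have : w ∈ {n | p n U} := hw
      rw [h] at this
      exact this
  · rintro (⟨h2, h3⟩ | ⟨rfl, h2⟩)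
    · apply le_antisymm
      · exact Nat.sInf_le h2
      · by_contra hlt
        push Not at hlt
        have h4 : sInf {n | p n U} ∈ {n | p n U} := Nat.sInf_mem ⟨v, h2⟩
        exact h3 _ hlt h4
    · have : {n | p n U} = ∅ := by
        ext w; simp [h2 w]
      show sInf {n | p n U} = 0
      rw [this]; simp

end

end Pool.Agent.Lib.MP_7d369a_lc.BV
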