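import Pool.Agent.Lib.MP_7d369a_lc.BV.Defs
import Pool.Agent.Lib.MP_7d369a_lc.BV.RS

/-!
# Names and measurable functions on the space of ultrafilters
-/

set_option autoImplicit false

namespace Pool.Agent.Lib.MP_7d369a_lc.BV

open Filter Pool.Agent.Ladder

section
variable {B : Type} [CompleteBooleanAlgebra B]

/-- `b` represents `p`. -/
def Rep (b : B) (p : Ult B → Prop) : Prop := ∀ᶠ U in gen B, b ∈ U ↔ p U

theorem Rep.congr {b : B} {p q : Ult B → Prop} (h : Rep b p) (hq : ∀ U, p U ↔ q U) : Rep b q :=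
  h.mono fun U h => h.trans (hq U)

theorem Rep.iSup {ι : Sort*} [Countable ι] {F : ι → B} {p : ι → Ult B → Prop}
    (h : ∀ i, Rep (F i) (p i)) : Rep (⨆ i, F i) (fun U => ∃ i, p i U) := by
  filter_upwards [eventually_forall h, gen_iSup F] with U h1 h2
  rw [h2]
  exact exists_congr fun i => h1 i

theorem Rep.iInf {ι : Sort*} [Countable ι] {F : ι → B} {p : ι → Ult B → Prop}
    (h : ∀ i, Rep (F i) (p i)) : Rep (⨅ i, F i) (fun U => ∀ i, p i U) := by
  filter_upwards [eventually_forall h, gen_iInf F] with U h1 h2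
  rw [h2]
  exact forall_congr' fun i => h1 i

theorem Rep.inf {b c : B} {p q : Ult B → Prop} (hp : Rep b p) (hq : Rep c q) :
    Rep (b ⊓ c) (fun U => p U ∧ q U) := by
  filter_upwards [hp, hq] with U h1 h2
  rw [Ult.mem_inf]
  exact and_congr h1 h2

theorem Rep.meas {b : B} {p : Ult B → Prop} (hp : Rep b p) : MeasP p :=
  ⟨b, hp.mono fun _ h => h.symm⟩

variable {Y : Type} [Countable Y] [Nonempty Y]

open Classical in
/-- The value of the name `x` at the ultrafilter `U`. -/
noncomputable def ev (x : BFun B ℕ Y) (U : Ult B) (n : ℕ) : Y :=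
  if h : ∃ v, x.val n v ∈ U then h.choose else Classical.arbitrary Y

theorem ev_gen (x : BFun B ℕ Y) : ∀ᶠ U in gen B, ∀ n v, x.val n v ∈ U ↔ ev x U n = v := by
  refine eventually_forall fun n => ?_
  filter_upwards [gen_iSup fun v => x.val n v] with U hU v
  have hex : ∃ v, x.val n v ∈ U := by
    rw [← hU, x.total]
    exact Ult.mem_top
  have hev : ev x U n = hex.choose := by
    unfold ev
    rw [dif_pos hex]
  have hspec := hex.choose_spec
  rw [← hev] at hspec
  constructor
  · intro h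
    by_contra hne
    have := Ult.mem_inf.2 ⟨hspec, h⟩
    rw [x.disj n _ _ hne] at this
    exact Ult.not_mem_bot this
  · rintro rfl
    exact hspec

theorem rep_ev (x : BFun B ℕ Y) (n : ℕ) (v : Y) : Rep (x.val n v) (fun U => ev x U n = v) :=
  (ev_gen x).mono fun _ h => h n v

theorem meas_ev (x : BFun B ℕ Y) (n : ℕ) : Meas (fun U => ev x U n) := fun v => (rep_ev x n v).meas

/-- The name given by a measurable function. -/
noncomputable def toName (X : Ult B → ℕ → Y) (hX : ∀ n, Meas (fun U => X U n)) : BFun B ℕ Y where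
  val n v := bv (fun U => X U n = v)
  disj n v v' hne := by
    apply eq_of_gen
    filter_upwards [bv_spec (hX n v), bv_spec (hX n v')] with U h1 h2
    rw [Ult.mem_inf, h1, h2]
    constructor
    · rintro ⟨rfl, rfl⟩; exact (hne rfl).elim
    · intro h; exact (Ult.not_mem_bot h).elim
  total n := by
    apply eq_of_gen
    filter_upwards [Rep.iSup fun v => bv_spec (hX n v)] with U h1
    rw [h1]
    exact ⟨fun _ => Ult.mem_top, fun _ => ⟨_, rfl⟩⟩

theorem toName_gen (X : Ult B → ℕ → Y) (hX : ∀ n, Meas (fun U => X U n)) :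
    ∀ᶠ U in gen B, ev (toName X hX) U = X U := by
  have h := eventually_forall fun n : ℕ => eventually_forall fun v : Y => bv_spec (hX n v)
  filter_upwards [ev_gen (toName X hX), h] with U h1 h2
  funext n
  exact (h1 n _).1 ((h2 n _).2 rfl)

/-! ### Values of formulas -/

theorem rep_extVal (σ : BFun B ℕ (List Bool)) (n : ℕ) (x : BFun B ℕ Bool) :
    Rep (extVal σ n x) (fun U => Ext (ev σ U n) (ev x U)) := by
  unfold extVal
  refine (Rep.iSup fun s => (rep_ev σ n s).inf
    (Rep.iInf fun i : Fin s.length => rep_ev x i s[i])).congr fun U => ?_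
  constructor
  · rintro ⟨s, rfl, h⟩ i hi
    exact (h ⟨i, hi⟩).symm
  · intro h
    exact ⟨_, rfl, fun i => (h i.1 i.2).symm⟩

theorem rep_limsupVal (σ : BFun B ℕ (List Bool)) (x : BFun B ℕ Bool) :
    Rep (limsupVal σ x) (fun U => ev x U ∈ limsupSet (ev σ U)) := by
  unfold limsupVal
  refine (Rep.iInf fun N : ℕ => Rep.iSup fun n : ℕ => Rep.iSup fun _ : N ≤ n =>
    rep_extVal σ n x).congr fun U => ?_
  unfold limsupSet
  rw [Set.mem_ofPred_eq, frequently_atTop]
  exact forall_congr' fun N => exists_congr fun n => ⟨fun ⟨h, h'⟩ => ⟨h, h'⟩, fun ⟨h, h'⟩ => ⟨h, h'⟩⟩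

theorem rep_llVal (f : ℕ → ℕ) (σ : BFun B ℕ (List Bool)) :
    Rep (llVal f σ) (fun U => LL f (fun n => (ev σ U n).length)) := by
  unfold llVal
  refine (Rep.iInf fun k : ℕ => Rep.iSup fun N : ℕ => Rep.iInf fun n : ℕ =>
    Rep.iInf fun _ : N ≤ n => Rep.iSup fun s : List Bool =>
    Rep.iSup fun _ : f (n ^ k) ≤ s.length => rep_ev σ n s).congr fun U => ?_
  unfold LL
  refine forall_congr' fun k => ?_
  rw [eventually_atTop]
  refine exists_congr fun N => forall_congr' fun n => forall_congr' fun _ => ?_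
  constructor
  · rintro ⟨s, h, rfl⟩; exact h
  · intro h; exact ⟨_, h, rfl⟩

theorem rep_leStar (x h : BFun B ℕ ℕ) :
    Rep (leStar x h) (fun U => ∀ᶠ n in atTop, ev x U n ≤ ev h U n) := by
  unfold leStar
  refine (Rep.iSup fun N : ℕ => Rep.iInf fun n : ℕ => Rep.iInf fun _ : N ≤ n =>
    Rep.iSup fun v : ℕ => Rep.iSup fun w : ℕ => Rep.iSup fun _ : v ≤ w =>
    (rep_ev x n v).inf (rep_ev h n w)).congr fun U => ?_
  rw [eventually_atTop]
  refine exists_congr fun N => forall_congr' fun n => forall_congr' fun _ => ?_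
  constructor
  · rintro ⟨v, w, h1, rfl, rfl⟩; exact h1
  · intro h1; exact ⟨_, _, h1, rfl, rfl⟩

theorem rep_inStar (x : BFun B ℕ ℕ) (S : BFun B ℕ (Finset ℕ)) :
    Rep (inStar x S) (fun U => ∀ᶠ n in atTop, ev x U n ∈ ev S U n) := by
  unfold inStar
  refine (Rep.iSup fun N : ℕ => Rep.iInf fun n : ℕ => Rep.iInf fun _ : N ≤ n =>
    Rep.iSup fun v : ℕ => Rep.iSup fun e : Finset ℕ => Rep.iSup fun _ : v ∈ e =>
    (rep_ev x n v).inf (rep_ev S n e)).congr fun U => ?_
  rw [eventually_atTop]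
  refine exists_congr fun N => forall_congr' fun n => forall_congr' fun _ => ?_
  constructor
  · rintro ⟨v, w, h1, rfl, rfl⟩; exact h1
  · intro h1; exact ⟨_, _, h1, rfl, rfl⟩

theorem rep_modStar (f : ℕ → ℕ) (x : BFun B ℕ ℕ) (S : BFun B ℕ (Finset ℕ)) :
    Rep (modStar f x S) (fun U => ∀ᶠ n in atTop, ev x U n % 2 ^ f n ∈ ev S U n) := by
  unfold modStar
  refine (Rep.iSup fun N : ℕ => Rep.iInf fun n : ℕ => Rep.iInf fun _ : N ≤ n =>
    Rep.iSup fun v : ℕ => Rep.iSup fun e : Finset ℕ => Rep.iSup fun _ : v % 2 ^ f n ∈ e =>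
    (rep_ev x n v).inf (rep_ev S n e)).congr fun U => ?_
  rw [eventually_atTop]
  refine exists_congr fun N => forall_congr' fun n => forall_congr' fun _ => ?_
  constructor
  · rintro ⟨v, w, h1, rfl, rfl⟩; exact h1
  · intro h1; exact ⟨_, _, h1, rfl, rfl⟩

theorem rep_eqVal (x y : BFun B ℕ Bool) : Rep (eqVal x y) (fun U => ev x U = ev y U) := by
  unfold eqVal
  refine (Rep.iInf fun n : ℕ => Rep.iSup fun b : Bool =>
    (rep_ev x n b).inf (rep_ev y n b)).congr fun U => ?_
  rw [funext_iff]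
  refine forall_congr' fun n => ?_
  constructor
  · rintro ⟨v, h1, h2⟩; rw [h1, h2]
  · intro h1; exact ⟨_, h1, rfl⟩

theorem slalom_gen {S : BFun B ℕ (Finset ℕ)} (hS : Slalom S) :
    ∀ᶠ U in gen B, ∀ n, (ev S U n).card ≤ n := by
  filter_upwards [ev_gen S] with U h n
  by_contra hlt
  push Not at hlt
  have := (h n _).2 rfl
  rw [hS n _ hlt] at this
  exact Ult.not_mem_bot this

theorem slalom_toName {X : Ult B → ℕ → Finset ℕ} (hX : ∀ n, Meas (fun U => X U n))
    (h : ∀ U n, (X U n).card ≤ n) : Slalom (toName X hX) := by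
  intro n e hlt
  apply eq_of_gen
  filter_upwards [bv_spec (hX n e)] with U h1
  show bv (fun U => X U n = e) ∈ U ↔ _
  rw [h1]
  constructor
  · rintro rfl; exact absurd (h U n) (not_le.2 hlt)
  · intro h; exact (Ult.not_mem_bot h).elim

theorem bdd_toName {X : Ult B → ℕ → ℕ} (hX : ∀ n, Meas (fun U => X U n))
    (h : ∀ U n, X U n < bd n) : Bdd (toName X hX) := by
  intro n v hle
  apply eq_of_gen
  filter_upwards [bv_spec (hX n v)] with U h1
  show bv (fun U => X U n = v) ∈ U ↔ _
  rw [h1]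
  constructor
  · rintro rfl; exact absurd (h U n) (not_lt.2 hle)
  · intro h; exact (Ult.not_mem_bot h).elim

/-- The name of the set `[σ]_∞`. -/
def limName (σ : BFun B ℕ (List Bool)) : SetName B where
  val x := limsupVal σ x
  ext x y := by
    apply le_of_gen
    filter_upwards [rep_eqVal x y, rep_limsupVal σ x, rep_limsupVal σ y] with U h1 h2 h3
    rw [Ult.mem_inf, h1, h2, h3]
    rintro ⟨h4, h5⟩
    rw [← h4]; exact h5

end

end Pool.Agent.Lib.MP_7d369a_lc.BV
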