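import Pool.Agent.Lib.MP_7d369a_lc.BV.Enum

/-!
# Pointwise part of the second capture lemma, with an explicit witness

If the slalom read off from `σ` does not localize `F`, then an explicit `x` belongs to
`[code2 F]_∞` and not to `[σ]_∞`.
-/

set_option autoImplicit false

namespace Pool.Agent.Lib.MP_7d369a_lc.BV

open Filter Cardinal
open scoped ENNReal

/-- The hypothesis of the counting argument: above some good node, all nodes are covered. -/
def HS (τ : ℕ → List Bool) (a : ℕ → ℕ) (u : ℕ → List Bool) : Prop :=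
  ∃ s, dl τ s ≠ 0 ∧ ∃ J, ∀ j ≥ J, ∀ t : List Bool, t.length = a j → s <+: t →
    dl τ (t ++ u j) = 0

open Classical in
theorem capture_of_HS {f : ℕ → ℕ} (hf : StrictMono f) {σ : ℕ → List Bool}
    {a q : ℕ → ℕ} {u : ℕ → List Bool} (ha : Tendsto a atTop atTop) (hu : ∀ j, u j ≠ [])
    (hq : ∀ᶠ j in atTop, a j ≤ q j ∧ 4 ≤ q j ∧ (u j).length = f (q j))
    {n0 : ℕ} (hn5 : 5 ≤ n0) (hn0 : ∀ m, n0 ≤ m → f (m ^ 2) ≤ (σ m).length)
    (H : HS (fun m => σ (m + n0)) a u) :
    ∃ c, ∀ᶠ j in atTop, ∀ b M : ℕ, (∀ m, (σ m).length ≤ b → m < M) → 2 ^ c * M < 2 ^ (a j) →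
      ∃ m t, t.length = a j ∧ b < (σ m).length ∧ (σ m).length ≤ a j + f (q j) + q j ∧
        (σ m <+: t ++ u j ∨ t ++ u j <+: σ m) := by
  let τ : ℕ → List Bool := fun m => σ (m + n0)
  have hτ0 : ∀ m, f ((m + n0) ^ 2) ≤ (τ m).length := fun m => hn0 (m + n0) (by omega)
  obtain ⟨s, hs, J, hJ⟩ := H
  obtain ⟨c, hc⟩ := exists_pow_le hs
  refine ⟨c, ?_⟩
  filter_upwards [ha.eventually_ge_atTop s.length, eventually_ge_atTop J, hq] with j hj1 hj2
    ⟨hq1, hq2, hq3⟩
  intro b M hM hlt
  by_contra hcon
  push Not at hcon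
  -- the number of good nodes at level `a j` above `s`
  set d := a j - s.length with hd
  have hcard := dl_le_card τ d s
  have h1 := two_pow_le_of (hc.trans hcard)
  have h2 : s.length + d = a j := by omega
  rw [h2] at h1
  set G := (lists d).filter (fun r => dl τ (s ++ r) ≠ 0) with hG
  -- every good node yields some m < M
  have h3 : G.card ≤ M := by
    have hsub : G.image (fun r => s ++ r) ⊆
        (Finset.range M).image (fun m => (σ m).take (a j)) := by
      intro t ht
      rw [Finset.mem_image] at ht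
      obtain ⟨r, hr, rfl⟩ := ht
      rw [hG, Finset.mem_filter, mem_lists] at hr
      obtain ⟨hr1, hr2⟩ := hr
      have htl : (s ++ r).length = a j := by rw [List.length_append, hr1]; exact h2
      have hz := hJ j hj2 (s ++ r) htl (List.prefix_append _ _)
      have hvl : (s ++ r ++ u j).length = a j + f (q j) := by
        rw [List.length_append, htl, hq3]
      obtain ⟨m, hm1, hm2⟩ := exists_cover_of_not_good (r := q j) (by
        intro m hm
        change _ < (τ m).length at hm
        change _ ≤ (τ m).length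
        rw [hvl] at hm ⊢
        by_cases hmq : m + 2 ≤ q j + 1
        · omega
        · have e1 : 4 ≤ m := by omega
          have e2 : q j + (a j + m + 2) ≤ (m + n0) ^ 2 := by
            have g1 : q j + (a j + m + 2) ≤ 4 * m := by omega
            have g2 : 4 * m ≤ m * m := Nat.mul_le_mul_right _ e1
            have g3 : m * m ≤ (m + n0) ^ 2 := by
              rw [sq]; exact Nat.mul_le_mul (Nat.le_add_right _ _) (Nat.le_add_right _ _)
            exact g1.trans (g2.trans g3)
          have e3 := (add_le_of_strictMono hf (q j) (a j + m + 2)).trans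
            ((hf.monotone e2).trans (hτ0 m))
          omega) hz
      change (τ m).length ≤ _ at hm1
      change τ m <+: _ ∨ _ <+: τ m at hm2
      rw [hvl] at hm1
      have hpos : 0 < (u j).length := List.length_pos_iff.2 (hu _)
      have hlong : a j < (τ m).length := by
        by_contra hle
        push Not at hle
        rcases hm2 with h | h
        · exact not_pre_of_good hr2 m
            (List.prefix_of_prefix_length_le h (List.prefix_append _ _) (by rw [htl]; exact hle))
        · have := h.length_le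
          rw [List.length_append, htl] at this
          omega
      have hpre : s ++ r <+: τ m := by
        rcases hm2 with h | h
        · exact List.prefix_of_prefix_length_le (List.prefix_append _ _) h
            (by rw [htl]; exact hlong.le)
        · exact (List.prefix_append _ _).trans h
      have hnb : (σ (m + n0)).length ≤ b := by
        by_contra hb
        push Not at hb
        have := hcon (m + n0) (s ++ r) htl hb hm1
        rcases hm2 with h | h
        · exact this.1 h
        · exact this.2 h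
      rw [Finset.mem_image]
      refine ⟨m + n0, Finset.mem_range.2 (hM _ hnb), ?_⟩
      have := List.prefix_iff_eq_take.1 hpre
      rw [htl] at this
      exact this.symm
    calc G.card = (G.image (fun r => s ++ r)).card := by
          rw [Finset.card_image_of_injective]
          intro x y hxy
          exact List.append_cancel_left hxy
      _ ≤ _ := Finset.card_le_card hsub
      _ ≤ (Finset.range M).card := Finset.card_image_le
      _ = M := Finset.card_range M
  have : 2 ^ c * G.card ≤ 2 ^ c * M := Nat.mul_le_mul_left _ h3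
  omega

/-- localization from `HS` -/
theorem loc_of_HS {f : ℕ → ℕ} (hf : StrictMono f) {F : ℕ → ℕ} (hF : ∀ j, F j < B2 f j)
    {σ' : ℕ → List Bool} (hσ : LL f (fun n => (σ' n).length)) {n0 : ℕ} (hn5 : 5 ≤ n0)
    (hn0 : ∀ m, n0 ≤ m → f (m ^ 2) ≤ (σ' m).length)
    (H : HS (fun m => σ' (m + n0)) a2 (u2 f F)) :
    ∀ᶠ j in atTop, F j ∈ (Finset.range (2 ^ j)).image (dec f σ' j) := by
  obtain ⟨c, hc⟩ := capture_of_HS hf (a := a2) (q := fun j => 2 ^ (j + a2 j)) (u := u2 f F)
    a2_tendsto (u2_ne hf F) (by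
      filter_upwards [eventually_ge_atTop 2] with j hj
      refine ⟨?_, ?_, length_u2 hf _ _⟩
      · have h1 : a2 j < 2 ^ (a2 j) := Nat.lt_two_pow_self
        exact h1.le.trans (Nat.pow_le_pow_right (by norm_num) (Nat.le_add_left _ _))
      · have : 2 ^ 2 ≤ 2 ^ (j + a2 j) :=
          Nat.pow_le_pow_right (by norm_num) (by omega)
        simpa using this) hn5 hn0 H
  let σ : Code f := ⟨σ', hσ⟩
  filter_upwards [hc, sqrt_tendsto.eventually_ge_atTop (thr σ 4 + c + 4),
    eventually_ge_atTop (thr σ 2 + 3)] with j hj hs1 hj2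
  simp only [Finset.mem_image, Finset.mem_range]
  set s := Nat.sqrt j with hsdef
  have ha : a2 j = 2 * s := rfl
  have hss : s * s ≤ j := Nat.sqrt_le j
  obtain ⟨m, t, ht, h2, h3, h4⟩ := hj (a2 j + f (2 ^ a2 j)) (thr σ 4 + 2 ^ s + 1)
    (by
      intro m hm
      by_contra hge
      push Not at hge
      have h3 : m ≤ 2 ^ s := count_bound hf σ (k := 4) (x := 2 ^ a2 j) (y := a2 j)
        ((Nat.le_add_right _ _).trans ((Nat.le_add_right _ _).trans hge))
        (by rw [add_comm]; exact hm) (by
          rw [ha]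
          have h1 : 2 * s < 2 ^ (2 * s) := Nat.lt_two_pow_self
          have h4 : (2 ^ s) ^ 4 = 2 ^ (2 * s) * 2 ^ (2 * s) := by
            rw [← pow_mul, ← pow_add]; congr 1; ring
          rw [h4]
          nlinarith) (by omega)
      omega)
    (by
      rw [ha]
      have h1 : s < 2 ^ s := Nat.lt_two_pow_self
      calc 2 ^ c * (thr σ 4 + 2 ^ s + 1) ≤ 2 ^ c * (2 ^ 2 * 2 ^ s) := by
            apply Nat.mul_le_mul_left; omega
        _ = 2 ^ (c + 2 + s) := by rw [← pow_add, ← pow_add]; congr 1; ring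
        _ < 2 ^ (2 * s) := Nat.pow_lt_pow_right (by norm_num) (by omega))
  refine ⟨m, ?_, ?_⟩
  · -- m < 2 ^ j
    by_contra hge
    push Not at hge
    have hj3 : j < 2 ^ j := Nat.lt_two_pow_self
    have h5 : m ≤ 2 ^ (j - 1) := count_bound hf σ (k := 2) (x := 2 ^ (j + a2 j))
      (y := a2 j + 2 ^ (j + a2 j)) (by omega)
      (by refine h3.trans (le_of_eq ?_); ring)
      (by
        have h1 : a2 j < 2 ^ (a2 j) := Nat.lt_two_pow_self
        have h2 : 2 ^ (a2 j) ≤ 2 ^ (j + a2 j) :=
          Nat.pow_le_pow_right (by norm_num) (Nat.le_add_left _ _)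
        have h3 : (2 ^ (j - 1)) ^ 2 = 2 ^ (2 * (j - 1)) := by
          rw [← pow_mul]; congr 1; ring
        have h4 : 2 ^ (j + a2 j + 2) ≤ 2 ^ (2 * (j - 1)) :=
          Nat.pow_le_pow_right (by norm_num) (by
            rw [ha]
            have : 4 ≤ s := by omega
            have : 2 * s + 4 ≤ s * s := by nlinarith
            omega)
        rw [h3]
        refine le_trans ?_ h4
        rw [pow_add _ (j + a2 j) 2]
        omega) (by norm_num)
    have h6 : 2 ^ (j - 1) < 2 ^ j := Nat.pow_lt_pow_right (by norm_num) (by omega)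
    omega
  · -- decoding
    unfold dec
    apply Nat.eq_of_testBit_eq
    intro i
    by_cases hi : i < f (2 ^ a2 j)
    · rw [Nat.testBit_ofBits_lt _ _ hi]
      have hp1 : a2 j + i < (σ' m).length := by omega
      have hmono : f (2 ^ a2 j) ≤ f (2 ^ (j + a2 j)) :=
        hf.monotone (Nat.pow_le_pow_right (by norm_num) (Nat.le_add_left _ _))
      have hp2 : a2 j + i < (t ++ u2 f F j).length := by
        rw [List.length_append, length_u2 hf, ht]
        omega
      show (σ' m).getD (a2 j + i) false = _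
      rw [getD_comparable h4 hp1 hp2, List.getD_eq_getElem _ _ hp2]
      rw [List.getElem_append_right (by omega)]
      simp only [ht, Nat.add_sub_cancel_left, u2]
      rw [List.getElem_append_left (by rw [length_enc]; exact hi), getElem_enc]
    · rw [Nat.testBit_ofBits_ge _ _ (not_lt.1 hi)]
      symm
      apply Nat.testBit_lt_two_pow
      exact (hF j).trans_le (Nat.pow_le_pow_right (by norm_num) (not_lt.1 hi))

/-! ### The explicit witness -/

/-- an enumeration of the pairs (level, node) -/
noncomputable def en : ℕ → ℕ × List Bool := (exists_surjective_nat (ℕ × List Bool)).choose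

theorem en_surjective : Function.Surjective en := (exists_surjective_nat (ℕ × List Bool)).choose_spec

/-- the requirement on the next node -/
def Nx (τ : ℕ → List Bool) (a : ℕ → ℕ) (u : ℕ → List Bool) (s : List Bool) (i c : ℕ) : Prop :=
  i ≤ (en c).1 ∧ (en c).2.length = a (en c).1 ∧ s <+: (en c).2 ∧ dl τ ((en c).2 ++ u (en c).1) ≠ 0

/-- the code of the next node -/
noncomputable def nxc (τ : ℕ → List Bool) (a : ℕ → ℕ) (u : ℕ → List Bool) (s : List Bool)
    (i : ℕ) : ℕ := sInf {c | Nx τ a u s i c}

/-- the nodes of the branch -/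
noncomputable def sq (τ : ℕ → List Bool) (a : ℕ → ℕ) (u : ℕ → List Bool) : ℕ → List Bool
  | 0 => []
  | i+1 => (en (nxc τ a u (sq τ a u i) i)).2 ++ u (en (nxc τ a u (sq τ a u i) i)).1

/-- the witness -/
noncomputable def theta (τ : ℕ → List Bool) (a : ℕ → ℕ) (u : ℕ → List Bool) (p : ℕ) : Bool :=
  (sq τ a u (p+1)).getD p false

theorem theta_spec {τ : ℕ → List Bool} (hτ : dl τ [] ≠ 0) {a : ℕ → ℕ} {u : ℕ → List Bool}
    (hu : ∀ j, u j ≠ []) (H : ¬ HS τ a u) :
    (∃ᶠ j in atTop, ∃ t : List Bool, t.length = a j ∧ Ext (t ++ u j) (theta τ a u)) ∧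
      ∀ m, ¬ Ext (τ m) (theta τ a u) := by
  have hn : ∀ s, dl τ s ≠ 0 → ∀ i, Nx τ a u s i (nxc τ a u s i) := by
    intro s hs i
    have hne : {c | Nx τ a u s i c}.Nonempty := by
      by_contra hcon
      apply H
      refine ⟨s, hs, i, fun j hj t ht hst => ?_⟩
      by_contra hd
      apply hcon
      obtain ⟨c, hc⟩ := en_surjective (j, t)
      refine ⟨c, ?_⟩
      show Nx τ a u s i c
      unfold Nx
      rw [hc]
      exact ⟨hj, ht, hst, hd⟩
    exact Nat.sInf_mem hne
  have hgood : ∀ i, dl τ (sq τ a u i) ≠ 0 := by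
    intro i
    induction i with
    | zero => exact hτ
    | succ i ih => exact (hn _ ih i).2.2.2
  have hs : ∀ i, sq τ a u (i+1) = (en (nxc τ a u (sq τ a u i) i)).2 ++
      u (en (nxc τ a u (sq τ a u i) i)).1 := fun i => rfl
  have hpre : ∀ i, sq τ a u i <+: sq τ a u (i+1) := by
    intro i
    rw [hs]
    exact (hn _ (hgood i) i).2.2.1.trans (List.prefix_append _ _)
  have hlen : ∀ i, i ≤ (sq τ a u i).length := by
    intro i
    induction i with
    | zero => exact Nat.zero_le _
    | succ i ih =>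
      rw [hs, List.length_append]
      have h1 := (hn _ (hgood i) i).2.2.1.length_le
      have h2 : 0 < (u (en (nxc τ a u (sq τ a u i) i)).1).length :=
        List.length_pos_iff.2 (hu _)
      omega
  have hmono : ∀ i k, sq τ a u i <+: sq τ a u (i+k) := by
    intro i k
    induction k with
    | zero => exact List.prefix_rfl
    | succ k ih => exact ih.trans (hpre _)
  have hx : ∀ i, Ext (sq τ a u i) (theta τ a u) := by
    intro i p hp
    have h1 : p < (sq τ a u (p+1)).length := by have := hlen (p+1); omega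
    have h2 : theta τ a u p = (sq τ a u (p+1))[p] := by
      simp [theta, List.getD_eq_getElem?_getD, h1]
    rw [h2]
    have a1 := hmono i (p+1)
    have a2 := hmono (p+1) i
    rw [add_comm (p+1) i] at a2
    rw [List.prefix_iff_getElem] at a1 a2
    obtain ⟨_, a1⟩ := a1
    obtain ⟨_, a2⟩ := a2
    rw [a1 p hp, a2 p h1]
  refine ⟨?_, fun m hm' => ?_⟩
  · rw [frequently_atTop]
    intro J
    have h1 := hn _ (hgood J) J
    refine ⟨_, h1.1, _, h1.2.1, ?_⟩
    rw [← hs]
    exact hx (J+1)
  · exact not_pre_of_good (hgood (τ m).length) m (pre_of_ext hm' (hx _) (hlen _))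

/-- the explicit code of `F` -/
noncomputable def code2 (f F : ℕ → ℕ) : ℕ → List Bool :=
  enumCode (fun j => 2 ^ (a2 j)) (fun j => lvl (a2 j) (u2 f F j)) (fun j => f (2 ^ j))

theorem code2_spec {f : ℕ → ℕ} (hf : StrictMono f) (F : ℕ → ℕ) :
    LL f (fun n => (code2 f F n).length) ∧ ∀ x : ℕ → Bool,
    (∃ᶠ j in atTop, ∃ t : List Bool, t.length = a2 j ∧ Ext (t ++ u2 f F j) x) →
      x ∈ limsupSet (code2 f F) := by
  obtain ⟨h1, h2⟩ := enumCode_spec (f := f) hf.monotone (S := fun j => lvl (a2 j) (u2 f F j))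
    (N := fun j => 2 ^ (a2 j)) (lam := fun j => f (2 ^ j))
    (fun i j hij => Nat.pow_le_pow_right (by norm_num) (a2_mono hij))
    (fun j => Nat.one_le_two_pow) (fun j => card_lvl _ _)
    (fun j s hs => by
      rw [len_lvl hs, length_u2 hf]
      exact (hf.monotone (Nat.pow_le_pow_right (by norm_num) (Nat.le_add_right _ _))).trans
        (Nat.le_add_left _ _))
    (by
      intro k
      filter_upwards [eventually_ge_atTop ((4 * k) ^ 2)] with j hj
      apply hf.monotone
      have hs : 4 * k ≤ Nat.sqrt j := Nat.le_sqrt'.2 hj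
      calc ((j+1) * 2 ^ (a2 j)) ^ k
          ≤ (2 ^ (a2 j) * 2 ^ (a2 j)) ^ k := by
            gcongr
            exact succ_le_of_sqrt j
        _ = 2 ^ (Nat.sqrt j * (4 * k)) := by
            unfold a2
            rw [← pow_add, ← pow_mul]; congr 1; ring
        _ ≤ 2 ^ (Nat.sqrt j * Nat.sqrt j) :=
            Nat.pow_le_pow_right (by norm_num) (Nat.mul_le_mul_left _ hs)
        _ ≤ 2 ^ j := Nat.pow_le_pow_right (by norm_num) (Nat.sqrt_le j))
  refine ⟨h1, fun x hx => h2 x ?_⟩
  refine hx.mono ?_
  rintro j ⟨t, ht, htx⟩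
  exact ⟨t ++ u2 f F j, mem_lvl ht, htx⟩

/-- the offset used for `σ` -/
noncomputable def off (f : ℕ → ℕ) (σ : ℕ → List Bool) : ℕ := thr' f σ 2 + 5

/-- the witness for `F` and `σ` -/
noncomputable def wit (f F : ℕ → ℕ) (σ : ℕ → List Bool) : ℕ → Bool :=
  theta (fun m => σ (m + off f σ)) a2 (u2 f F)

theorem capture2 {f : ℕ → ℕ} (hf : StrictMono f) {F : ℕ → ℕ} (hF : ∀ j, F j < B2 f j)
    {σ : ℕ → List Bool} (hσ : LL f (fun n => (σ n).length))
    (hnot : ¬ ∀ᶠ j in atTop, F j ∈ (Finset.range (2 ^ j)).image (dec f σ j)) :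
    wit f F σ ∈ limsupSet (code2 f F) ∧ wit f F σ ∉ limsupSet σ := by
  have hn0 : ∀ m, off f σ ≤ m → f (m ^ 2) ≤ (σ m).length := fun m hm =>
    thr'_spec hσ 2 m ((Nat.le_add_right _ _).trans hm)
  have hn5 : 5 ≤ off f σ := Nat.le_add_left _ _
  have hHS : ¬ HS (fun m => σ (m + off f σ)) a2 (u2 f F) := fun h =>
    hnot (loc_of_HS hf hF hσ hn5 hn0 h)
  have hτ : ∀ m, 4 * m + 4 ≤ (σ (m + off f σ)).length := by
    intro m
    have h := (hf.le_apply).trans (hn0 (m + off f σ) (Nat.le_add_left _ _))
    have : 4 * m + 4 ≤ (m + off f σ) ^ 2 := by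
      have : 5 ≤ m + off f σ := by omega
      nlinarith
    exact this.trans h
  obtain ⟨h1, h2⟩ := theta_spec (root_good hτ) (u2_ne hf F) hHS
  refine ⟨(code2_spec hf F).2 _ h1, fun h => ?_⟩
  simp only [limsupSet, Set.mem_ofPred_eq] at h
  rw [frequently_atTop] at h
  obtain ⟨n, hn, hx'⟩ := h (off f σ)
  apply h2 (n - off f σ)
  rwa [Nat.sub_add_cancel hn]

end Pool.Agent.Lib.MP_7d369a_lc.BV
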