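import Pool.Agent.Lib.MP_7d369a_lc.BV.P2
import Pool.Agent.Lib.MP_7d369a_lc.BV.MIX

/-!
# The second capture lemma for names: an unlocalized `c` gives an uncaptured set
-/

set_option autoImplicit false

namespace Pool.Agent.Lib.MP_7d369a_lc.BV

open Filter Pool.Agent.Ladder
open scoped ENNReal

/-- `u2` at one place, with the value as a parameter -/
def u2K (f : ℕ → ℕ) (j v : ℕ) : List Bool :=
  enc v (f (2 ^ a2 j)) ++ List.replicate (f (2 ^ (j + a2 j)) - f (2 ^ a2 j)) false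

theorem u2_eq (f F : ℕ → ℕ) (j : ℕ) : u2 f F j = u2K f j (F j) := rfl

/-- the function to be localized, read off from `c` -/
def ff (f c : ℕ → ℕ) (j : ℕ) : ℕ := c (2 ^ j) % 2 ^ f (2 ^ a2 j)

theorem ff_lt (f c : ℕ → ℕ) (j : ℕ) : ff f c j < B2 f j := Nat.mod_lt _ (by positivity)

/-- the growth function at all places -/
def fp (f : ℕ → ℕ) (n : ℕ) : ℕ := if 2 ^ Nat.log 2 n = n then f (2 ^ a2 (Nat.log 2 n)) else 0

/-- the slalom read off from `σ` -/
def w2s (f : ℕ → ℕ) (σ : ℕ → List Bool) (n : ℕ) : Finset ℕ :=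
  if 2 ^ Nat.log 2 n = n then
    (Finset.range (2 ^ Nat.log 2 n)).image (dec f σ (Nat.log 2 n))
  else if n = 0 then ∅ else {0}

theorem card_w2s (f : ℕ → ℕ) (σ : ℕ → List Bool) (n : ℕ) : (w2s f σ n).card ≤ n := by
  unfold w2s
  split_ifs with h1 h2
  · refine Finset.card_image_le.trans ?_
    rw [Finset.card_range, h1]
  · simp
  · rw [Finset.card_singleton]; omega

theorem loc_of_mod {f c : ℕ → ℕ} {σ : ℕ → List Bool}
    (h : ∀ᶠ j in atTop, ff f c j ∈ (Finset.range (2 ^ j)).image (dec f σ j)) :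
    ∀ᶠ n in atTop, c n % 2 ^ fp f n ∈ w2s f σ n := by
  have hlog : Tendsto (Nat.log 2) atTop atTop := by
    rw [tendsto_atTop]
    intro b
    filter_upwards [eventually_ge_atTop (2 ^ b)] with m hm
    exact Nat.le_log_of_pow_le (by norm_num) hm
  filter_upwards [hlog.eventually h, eventually_ge_atTop 1] with n hn hn1
  unfold fp w2s
  split_ifs with h1 h2
  · unfold ff at hn
    rwa [h1] at hn ⊢
  · omega
  · simp [Nat.mod_one]

section
variable {B : Type} [CompleteBooleanAlgebra B]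

theorem MeasP.fin {Y : Type} [Countable Y] {X : Ult B → ℕ → Y} (hX : ∀ n, Meas (fun U => X U n))
    (N : ℕ) (P : (ℕ → Y) → Prop) (hP : ∀ x x', (∀ n < N, x n = x' n) → (P x ↔ P x')) :
    MeasP (fun U => P (X U)) := by
  have h := Meas.fin hX N P fun x x' h => propext (hP x x' h)
  exact (h True).congr (Eventually.of_forall fun U => by simp)

theorem meas_thr' (f : ℕ → ℕ) (σ : BFun B ℕ (List Bool)) (k : ℕ) :
    Meas (fun U => thr' f (ev σ U) k) := by
  apply Meas.least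
  intro n
  refine MeasP.all fun m => (MeasP.const _).imp ?_
  exact (meas_ev σ m).pred (R := fun _ s => f (m ^ k) ≤ s.length) fun s => MeasP.const _

theorem dl_ne_zero_iff (τ : ℕ → List Bool) (s : List Bool) :
    dl τ s ≠ 0 ↔ ∃ q : ℚ, ((Real.toNNReal q : NNReal) : ℝ≥0∞) < (2:ℝ≥0∞)⁻¹ ^ s.length ∧
      ∀ N : ℕ, ∑ m ∈ Finset.range N, wt s (τ m) ≤ ((Real.toNNReal q : NNReal) : ℝ≥0∞) := by
  unfold dl
  rw [Ne, tsub_eq_zero_iff_le, not_le]
  have key : ∀ b : ℝ≥0∞, hm τ s ≤ b ↔ ∀ N : ℕ, ∑ m ∈ Finset.range N, wt s (τ m) ≤ b := by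
    intro b
    unfold hm
    rw [ENNReal.tsum_eq_iSup_nat, iSup_le_iff]
  constructor
  · intro h
    rw [ENNReal.lt_iff_exists_rat_btwn] at h
    obtain ⟨q, _, h1, h2⟩ := h
    exact ⟨q, h2, (key _).1 h1.le⟩
  · rintro ⟨q, h1, h2⟩
    exact ((key _).2 h2).trans_lt h1

theorem meas_dl (σ : BFun B ℕ (List Bool)) (K : ℕ) (s : List Bool) :
    MeasP (fun U => dl (fun m => ev σ U (m + K)) s ≠ 0) := by
  have h1 : ∀ (q : ℚ) (N : ℕ), MeasP (fun U : Ult B =>
      ∑ m ∈ Finset.range N, wt s (ev σ U (m + K)) ≤ ((Real.toNNReal q : NNReal) : ℝ≥0∞)) := by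
    intro q N
    refine MeasP.fin (fun n => meas_ev σ n) (N + K) (fun x => ∑ m ∈ Finset.range N, wt s (x (m + K))
      ≤ ((Real.toNNReal q : NNReal) : ℝ≥0∞)) ?_
    intro x x' h
    have : ∑ m ∈ Finset.range N, wt s (x (m + K)) = ∑ m ∈ Finset.range N, wt s (x' (m + K)) := by
      refine Finset.sum_congr rfl fun m hm => ?_
      rw [h (m + K) (by have := Finset.mem_range.1 hm; omega)]
    rw [this]
  refine (MeasP.ex fun q : ℚ => (MeasP.const (((Real.toNNReal q : NNReal) : ℝ≥0∞) <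
    (2:ℝ≥0∞)⁻¹ ^ s.length)).and (MeasP.all fun N : ℕ => h1 q N)).congr
    (Eventually.of_forall fun U => ?_)
  exact dl_ne_zero_iff _ _

theorem meas_off (f : ℕ → ℕ) (σ : BFun B ℕ (List Bool)) : Meas (fun U => off f (ev σ U)) :=
  (meas_thr' f σ 2).map (fun n => n + 5)

theorem meas_dl' (f : ℕ → ℕ) (σ : BFun B ℕ (List Bool)) (s : List Bool) :
    MeasP (fun U => dl (fun m => ev σ U (m + off f (ev σ U))) s ≠ 0) :=
  (meas_off f σ).pred (R := fun U K => dl (fun m => ev σ U (m + K)) s ≠ 0)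
    fun K => meas_dl σ K s

theorem meas_ff (f : ℕ → ℕ) (c : BFun B ℕ ℕ) (j : ℕ) : Meas (fun U => ff f (ev c U) j) :=
  (meas_ev c (2 ^ j)).map (fun v => v % 2 ^ f (2 ^ a2 j))

theorem meas_Nx (f : ℕ → ℕ) (c : BFun B ℕ ℕ) (σ : BFun B ℕ (List Bool)) (s : List Bool)
    (i k : ℕ) : MeasP (fun U => Nx (fun m => ev σ U (m + off f (ev σ U))) a2
      (u2 f (ff f (ev c U))) s i k) := by
  unfold Nx
  refine (MeasP.const _).and ((MeasP.const _).and ((MeasP.const _).and ?_))
  exact (meas_ff f c (en k).1).pred (R := fun U v =>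
    dl (fun m => ev σ U (m + off f (ev σ U))) ((en k).2 ++ u2K f (en k).1 v) ≠ 0)
    fun v => meas_dl' f σ _

theorem meas_nxc (f : ℕ → ℕ) (c : BFun B ℕ ℕ) (σ : BFun B ℕ (List Bool)) (s : List Bool)
    (i : ℕ) : Meas (fun U => nxc (fun m => ev σ U (m + off f (ev σ U))) a2
      (u2 f (ff f (ev c U))) s i) :=
  Meas.least fun k => meas_Nx f c σ s i k

theorem meas_sq (f : ℕ → ℕ) (c : BFun B ℕ ℕ) (σ : BFun B ℕ (List Bool)) (i : ℕ) :
    Meas (fun U => sq (fun m => ev σ U (m + off f (ev σ U))) a2 (u2 f (ff f (ev c U))) i) := by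
  induction i with
  | zero => exact Meas.const _
  | succ i ih =>
    refine ih.comp (F := fun U s => (en (nxc (fun m => ev σ U (m + off f (ev σ U))) a2
      (u2 f (ff f (ev c U))) s i)).2 ++ u2 f (ff f (ev c U))
      (en (nxc (fun m => ev σ U (m + off f (ev σ U))) a2 (u2 f (ff f (ev c U))) s i)).1) fun s => ?_
    refine (meas_nxc f c σ s i).comp (F := fun U k => (en k).2 ++ u2 f (ff f (ev c U)) (en k).1)
      fun k => ?_
    exact (meas_ff f c (en k).1).map fun v => (en k).2 ++ u2K f (en k).1 v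

theorem meas_wit (f : ℕ → ℕ) (c : BFun B ℕ ℕ) (σ : BFun B ℕ (List Bool)) (p : ℕ) :
    Meas (fun U => wit f (ff f (ev c U)) (ev σ U) p) :=
  (meas_sq f c σ (p+1)).map fun s => s.getD p false

theorem meas_code2 (f : ℕ → ℕ) (c : BFun B ℕ ℕ) (n : ℕ) :
    Meas (fun U => code2 f (ff f (ev c U)) n) :=
  (meas_ff f c (lev (fun j => 2 ^ (a2 j)) n)).map fun v =>
    (lvl (a2 (lev (fun j => 2 ^ (a2 j)) n)) (u2K f (lev (fun j => 2 ^ (a2 j)) n) v)).toList.getD
    (n - cs (fun j => 2 ^ (a2 j)) (lev (fun j => 2 ^ (a2 j)) n))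
    (List.replicate (f (2 ^ lev (fun j => 2 ^ (a2 j)) n)) false)

theorem meas_w2s (f : ℕ → ℕ) (σ : BFun B ℕ (List Bool)) (n : ℕ) :
    Meas (fun U => w2s f (ev σ U) n) := by
  refine Meas.fin (fun n => meas_ev σ n) (2 ^ Nat.log 2 n) (fun σ => w2s f σ n) ?_
  intro x x' h
  unfold w2s
  split_ifs with h1 h2
  · apply Finset.image_congr
    intro m hm
    have hm' : m < 2 ^ Nat.log 2 n := by simpa using hm
    unfold dec
    simp only [h m hm']
  · rfl
  · rfl

/-- name of the code of the set given by `c` -/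
noncomputable def code2Name (f : ℕ → ℕ) (c : BFun B ℕ ℕ) : BFun B ℕ (List Bool) :=
  toName (fun U n => code2 f (ff f (ev c U)) n) (meas_code2 f c)

/-- name of the witness -/
noncomputable def witName (f : ℕ → ℕ) (c : BFun B ℕ ℕ) (σ : BFun B ℕ (List Bool)) :
    BFun B ℕ Bool :=
  toName (fun U n => wit f (ff f (ev c U)) (ev σ U) n) (meas_wit f c σ)

/-- name of the slalom -/
noncomputable def w2Name (f : ℕ → ℕ) (σ : BFun B ℕ (List Bool)) : BFun B ℕ (Finset ℕ) :=
  toName (fun U n => w2s f (ev σ U) n) (meas_w2s f σ)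

theorem slalom_w2Name (f : ℕ → ℕ) (σ : BFun B ℕ (List Bool)) : Slalom (w2Name f σ) :=
  slalom_toName _ fun _ _ => card_w2s _ _ _

theorem ll_code2Name {f : ℕ → ℕ} (hf : StrictMono f) (c : BFun B ℕ ℕ) :
    llVal f (code2Name f c) = ⊤ := by
  apply eq_of_gen
  filter_upwards [rep_llVal f (code2Name f c), toName_gen _ (meas_code2 f c)] with U h1 h2
  rw [h1]
  refine iff_of_true ?_ Ult.mem_top
  unfold code2Name
  rw [h2]
  exact (code2_spec hf _).1

theorem cap2 {f : ℕ → ℕ} (hf : StrictMono f) (c : BFun B ℕ ℕ) (σ : BFun B ℕ (List Bool)) :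
    llVal f σ ⊓ (modStar (fp f) c (w2Name f σ))ᶜ ≤
      limsupVal (code2Name f c) (witName f c σ) ⊓ (limsupVal σ (witName f c σ))ᶜ := by
  apply le_of_gen
  filter_upwards [rep_llVal f σ, rep_modStar (fp f) c (w2Name f σ),
    rep_limsupVal (code2Name f c) (witName f c σ), rep_limsupVal σ (witName f c σ),
    toName_gen _ (meas_code2 f c), toName_gen _ (meas_wit f c σ),
    toName_gen _ (meas_w2s f σ)] with U h1 h2 h3 h4 h5 h6 h7
  rw [Ult.mem_inf, Ult.mem_inf, Ult.mem_compl, Ult.mem_compl, h1, h2, h3, h4]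
  rintro ⟨h8, h9⟩
  unfold w2Name at h9
  unfold code2Name witName
  rw [h7] at h9
  rw [h5, h6]
  exact capture2 hf (ff_lt f _) h8 fun h => h9 (loc_of_mod h)

/-- the set given by `c` -/
noncomputable def setC (f : ℕ → ℕ) (c : BFun B ℕ ℕ) : SetName B := limName (code2Name f c)

theorem memVal_setC {f : ℕ → ℕ} (hf : StrictMono f) (c : BFun B ℕ ℕ) :
    memVal f (setC f c) = ⊤ := by
  apply top_unique
  refine le_iSup_of_le (code2Name f c) (le_inf (ll_code2Name hf c).ge (le_iInf fun x => ?_))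
  rw [le_himp_iff]
  exact inf_le_right

theorem codeVal_setC_le {f : ℕ → ℕ} (hf : StrictMono f) (c : BFun B ℕ ℕ)
    (σ : BFun B ℕ (List Bool)) :
    codeVal f (setC f c) σ ≤ modStar (fp f) c (w2Name f σ) := by
  have h := cap2 hf c σ
  have h1 : codeVal f (setC f c) σ ≤
      limsupVal (code2Name f c) (witName f c σ) ⇨ limsupVal σ (witName f c σ) :=
    inf_le_right.trans (iInf_le _ (witName f c σ))
  have h2 : codeVal f (setC f c) σ ⊓ (modStar (fp f) c (w2Name f σ))ᶜ ≤ ⊥ := by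
    calc codeVal f (setC f c) σ ⊓ (modStar (fp f) c (w2Name f σ))ᶜ
        ≤ (limsupVal (code2Name f c) (witName f c σ) ⇨ limsupVal σ (witName f c σ)) ⊓
          (limsupVal (code2Name f c) (witName f c σ) ⊓ (limsupVal σ (witName f c σ))ᶜ) :=
          le_inf (inf_le_left.trans h1) ((inf_le_inf inf_le_left le_rfl).trans h)
      _ = ((limsupVal (code2Name f c) (witName f c σ) ⇨ limsupVal σ (witName f c σ)) ⊓
          limsupVal (code2Name f c) (witName f c σ)) ⊓ (limsupVal σ (witName f c σ))ᶜ := by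
          rw [inf_assoc]
      _ ≤ limsupVal σ (witName f c σ) ⊓ (limsupVal σ (witName f c σ))ᶜ :=
          inf_le_inf himp_inf_le le_rfl
      _ ≤ ⊥ := inf_compl_eq_bot.le
  exact disjoint_compl_right_iff.1 (disjoint_iff_inf_le.2 h2)

end

end Pool.Agent.Lib.MP_7d369a_lc.BV
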